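import Pool.Agent.H15.PC.Fam
import Pool.Agent.H17.UEG.Cot
import Pool.Agent.H40.PC.Time

/-!
# The windows of a family with live times

From `Tim F K η h`: except for few windows `w`, the near samples of the scales `i < X` in the
window `w`, for the truncated time, are rare on all events (`tim_win`).
-/

set_option autoImplicit false

namespace Pool.PC

open Finset Real
open Pool.Agent.H49.Ent Pool.Agent.H32.Dense Pool.STK Pool.KA Pool.KSAT Pool.K2S Pool.OCG

namespace TimW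

variable {m J : ℕ}

/-- The two truncated times are the same. -/
theorem cut_T (F : Fam m J) (R : ℕ) (ω : F.Ω) : (F.cot R).T ω = (cut F R).T ω := mul_comm _ _

theorem cut_wt (F : Fam m J) (R w : ℕ) : (F.cot R).wt w = (cut F R).wt w := by
  funext ω
  show (((F.cot R).T ω % 2 ^ (J - w) : ℕ) : ℝ) / 2 ^ (J - w) =
    (((cut F R).T ω % 2 ^ (J - w) : ℕ) : ℝ) / 2 ^ (J - w)
  rw [cut_T]

theorem cut_sl (F : Fam m J) {R w : ℕ} (h : w ≤ R) : slam (F.cot R) w = slam (cut F R) w := by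
  rw [cut_slam F h, Cot.slam_fun F h]

/-- The sums over intervals of a length, summed over the places. -/
theorem sum_win {D : ℕ → ℝ} (h0 : ∀ v, 0 ≤ D v) (X : ℕ) (s : Finset ℕ)
    (hs : ∀ w ∈ s, w + X ≤ J) :
    ∑ w ∈ s, ∑ v ∈ Ico w (w + X), D v ≤ X * ∑ v ∈ range J, D v := by
  classical
  have h1 : ∀ w ∈ s, ∑ v ∈ Ico w (w + X), D v =
      ∑ v ∈ range J, if v ∈ Ico w (w + X) then D v else 0 := by
    intro w hw
    rw [← Finset.sum_filter]
    refine Finset.sum_congr ?_ fun _ _ => rfl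
    ext v
    rw [Finset.mem_filter, Finset.mem_range, Finset.mem_Ico]
    have := hs w hw
    constructor
    · intro h
      exact ⟨by omega, h⟩
    · exact fun h => h.2
  rw [Finset.sum_congr rfl h1, Finset.sum_comm, Finset.mul_sum]
  refine Finset.sum_le_sum fun v _ => ?_
  rw [← Finset.sum_filter, Finset.sum_const, nsmul_eq_mul]
  refine mul_le_mul_of_nonneg_right ?_ (h0 v)
  have h2 : (s.filter fun w => v ∈ Ico w (w + X)) ⊆ Ico (v + 1 - X) (v + 1) := by
    intro w hw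
    rw [Finset.mem_filter, Finset.mem_Ico] at hw
    rw [Finset.mem_Ico]
    omega
  have h3 := Finset.card_le_card h2
  rw [Nat.card_Ico] at h3
  have h4 : (s.filter fun w => v ∈ Ico w (w + X)).card ≤ X := by omega
  exact_mod_cast h4

end TimW

variable {J : ℕ}

/-- **The live windows.** The windows which are not in `T` have rare near samples, on all events of
probability at least `ϖ`. -/
theorem tim_win {F : Fam 2 J} {K : ℕ} {η h ϖ eN : ℝ} (hT : Tim F K η h) (hϖ : 0 < ϖ)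
    (hh : h ≤ ϖ) (he : 0 < eN) (hη : η ≤ eN / 4) {X : ℕ} (hX : 1 ≤ X)
    (hJ : h * J ≤ eN / 4 * X) :
    ∃ T : Finset ℕ, T ⊆ range J ∧ (T.card : ℝ) ≤ 2 * η / (ϖ * eN) * J ∧
      ∀ w, w ∉ T → ∀ R, w + X + K + 1 ≤ R → R ≤ J → ∀ E : F.Ω → Prop, ϖ ≤ Pe F.p E →
        ∑ i ∈ range X, nr (Pool.Agent.H49.Ent.cond F.p E True) (slam (F.cot R) w)
          ((F.cot R).wt w) (K + 1) i ≤ eN * X := by
  classical
  obtain ⟨D, h0, -, h2, h3⟩ := hT
  have hX' : (0 : ℝ) < X := by exact_mod_cast hX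
  obtain ⟨T, hTd⟩ : ∃ T : Finset ℕ, T = (range J).filter
    (fun w => w + X ≤ J ∧ ϖ * (eN / 2 * X) < ∑ v ∈ Ico w (w + X), D v) := ⟨_, rfl⟩
  have hmem : ∀ w, w ∈ T ↔ w < J ∧ w + X ≤ J ∧ ϖ * (eN / 2 * X) < ∑ v ∈ Ico w (w + X), D v := by
    intro w
    rw [hTd, Finset.mem_filter, Finset.mem_range]
  refine ⟨T, ?_, ?_, ?_⟩
  · rw [hTd]
    exact Finset.filter_subset _ _
  · have h4 := TimW.sum_win (J := J) h0 X T fun w hw => ((hmem w).1 hw).2.1
    have h5 : (T.card : ℝ) * (ϖ * (eN / 2 * X)) ≤ ∑ w ∈ T, ∑ v ∈ Ico w (w + X), D v := by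
      rw [← nsmul_eq_mul, ← Finset.sum_const]
      exact Finset.sum_le_sum fun w hw => ((hmem w).1 hw).2.2.le
    have h6 : (X : ℝ) * ∑ v ∈ range J, D v ≤ X * (η * J) :=
      mul_le_mul_of_nonneg_left h2 hX'.le
    have h7 : (T.card : ℝ) * (ϖ * (eN / 2 * X)) ≤ X * (η * J) := by linarith
    have h8 : (T.card : ℝ) * (ϖ * eN) ≤ 2 * η * J := by
      have h9 : ((T.card : ℝ) * (ϖ * eN)) * X ≤ (2 * η * J) * X := by linarith
      exact le_of_mul_le_mul_right h9 hX'
    rw [div_mul_eq_mul_div, le_div_iff₀ (by positivity)]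
    exact h8
  · intro w hw R hR hRJ E hE
    have hc : ∀ ω, 0 ≤ Pool.Agent.H49.Ent.cond F.p E True ω := cond_nonneg F.isLaw.nonneg E True
    have hS : ∑ v ∈ Ico w (w + X), D v ≤ ϖ * (eN / 2 * X) := by
      by_contra hcon
      exact hw ((hmem w).2 ⟨by omega, by omega, not_le.1 hcon⟩)
    have h4 := h3 E (hh.trans hE) w (w + X) (Nat.le_add_right w X) (by omega)
    have h5 : ∑ i ∈ range X, nr (Pool.Agent.H49.Ent.cond F.p E True) (slam (F.cot R) w)
          ((F.cot R).wt w) (K + 1) i ≤ ∑ i ∈ range X,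
        Pe (dbl (Pool.Agent.H49.Ent.cond F.p E True) (slam F (w + i)))
          (fun x => |(F.T x.1 : ℝ) - F.T x.2| < 2 ^ (J - (w + i + K))) := by
      refine Finset.sum_le_sum fun i hi => ?_
      have hi' := Finset.mem_range.1 hi
      have h6 := nr_cut F hc (w := w) (i := i) (K := K) (R := R) (by omega) hRJ
      rw [← TimW.cut_wt F R w, ← TimW.cut_sl F (show w ≤ R by omega)] at h6
      refine h6.trans (le_of_eq ?_)
      rw [Pool.KAF.Pr_eq, Pe_eq]
      refine Finset.sum_congr rfl fun x _ => ?_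
      by_cases h7 : |(F.T x.1 : ℝ) - F.T x.2| < 2 ^ (J - (w + i + K))
      · rw [if_pos h7, if_pos (show x ∈ {x : F.Ω × F.Ω | |(F.T x.1 : ℝ) - F.T x.2| <
          2 ^ (J - (w + i + K))} from h7)]
      · rw [if_neg h7, if_neg (show ¬ x ∈ {x : F.Ω × F.Ω | |(F.T x.1 : ℝ) - F.T x.2| <
          2 ^ (J - (w + i + K))} from h7)]
    rw [sum_shift (fun v => Pe (dbl (Pool.Agent.H49.Ent.cond F.p E True) (slam F v))
      (fun x => |(F.T x.1 : ℝ) - F.T x.2| < 2 ^ (J - (v + K))))] at h5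
    push_cast at h4
    have e1 : ((w : ℝ) + X) - w = X := by ring
    rw [e1] at h4
    have h0S : 0 ≤ ∑ v ∈ Ico w (w + X), D v := Finset.sum_nonneg fun v _ => h0 v
    have h6 : (∑ v ∈ Ico w (w + X), D v) / Pe F.p E ≤ eN / 2 * X := by
      rw [div_le_iff₀ (hϖ.trans_le hE)]
      have h7 : ϖ * (eN / 2 * X) ≤ Pe F.p E * (eN / 2 * X) :=
        mul_le_mul_of_nonneg_right hE (by positivity)
      linarith
    have h7 := mul_le_mul_of_nonneg_right hη hX'.le
    linarith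

end Pool.PC
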