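import Pool.Agent.H54.PC.Cnt

/-!
# Plan C, row BOX: a finer box, if the fans are near lines
-/

set_option autoImplicit false

namespace Pool.PC

open Finset Real
open Pool.Agent.H49.Ent Pool.Agent.H32.Dense Pool.STK Pool.KA Pool.K2S

variable {m J : ℕ}

theorem pe_pigeon67 {Ω κ : Type} [Fintype Ω] [Fintype κ] [Nonempty κ] {p : Ω → ℝ}
    (k : Ω → κ) (A : Ω → Prop) :
    ∃ k₀, Pe p A / Fintype.card κ ≤ Pe p (fun ω => A ω ∧ k ω = k₀) := by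
  classical
  by_contra hcon
  push Not at hcon
  have hMr : (0 : ℝ) < Fintype.card κ := by exact_mod_cast Fintype.card_pos
  have h1 : Pe p A = ∑ i : κ, Pe p (fun ω => A ω ∧ k ω = i) := by
    simp only [Pe_eq]
    rw [Finset.sum_comm]
    refine Finset.sum_congr rfl fun ω _ => ?_
    rw [Finset.sum_eq_single (k ω)]
    · by_cases hA : A ω
      · rw [if_pos hA, if_pos ⟨hA, rfl⟩]
      · rw [if_neg hA, if_neg (fun h => hA h.1)]
    · intro i _ hi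
      rw [if_neg (fun h => hi h.2.symm)]
    · intro h
      exact absurd (Finset.mem_univ _) h
  have h2 : ∑ i : κ, Pe p (fun ω => A ω ∧ k ω = i) < ∑ _i : κ, Pe p A / Fintype.card κ :=
    Finset.sum_lt_sum_of_nonempty Finset.univ_nonempty fun i _ => hcon i
  rw [Finset.sum_const, Finset.card_univ, nsmul_eq_mul, ← h1,
    mul_div_cancel₀ _ hMr.ne'] at h2
  exact lt_irrefl _ h2

theorem exists_on {F : Fam m J} {A : F.Ω → Prop} (h : 0 < Pe F.p A) : ∃ ω, On F A ω := by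
  classical
  by_contra hcon
  push Not at hcon
  rw [Pe_eq] at h
  have : ∑ ω, (if A ω then F.p ω else 0) ≤ 0 := by
    refine Finset.sum_nonpos fun ω _ => ?_
    split_ifs with hA
    · by_contra hc
      push Not at hc
      exact hcon ω ⟨hc, hA⟩
    · exact le_rfl
  linarith

theorem oth_oth (i : Fin 2) : oth (oth i) = i := by
  fin_cases i <;> simp [oth]

theorem floor_close67 {x y K : ℝ} {N : ℤ} (h : |x - y| ≤ K) (hK : K + 1 ≤ N) :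
    ⌊x⌋ ∈ Finset.Icc (⌊y⌋ - N) (⌊y⌋ + N) := by
  rw [abs_le] at h
  rw [Finset.mem_Icc]
  constructor
  · have h1 := Int.lt_floor_add_one x
    have h2 := Int.floor_le y
    have : ((⌊y⌋ - N : ℤ) : ℝ) < ((⌊x⌋ + 1 : ℤ) : ℝ) := by
      push_cast
      linarith [h.1]
    have := Int.cast_lt.1 this
    omega
  · have h1 := Int.floor_le x
    have h2 := Int.lt_floor_add_one y
    have : ((⌊x⌋ : ℤ) : ℝ) < ((⌊y⌋ + N + 1 : ℤ) : ℝ) := by
      push_cast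
      linarith [h.2]
    have := Int.cast_lt.1 this
    omega

/-- A label with the slope determined by `P` and cells which vary by at most `N`. -/
theorem cnt_lab {F : Fam 2 J} {A : F.Ω → Prop} {B : Bx F} {α : Type} {P : F.Ω → α} {N : ℕ}
    (h1 : ∀ ω ω', On F A ω → On F A ω' → P ω = P ω' → B.a ω = B.a ω' ∧
      |2 ^ B.q * F.d ω B.i0 - 2 ^ B.q * F.d ω' B.i0| ≤ N ∧
      |2 ^ B.n * B.pr ω (F.d ω) - 2 ^ B.n * B.pr ω' (F.d ω')| ≤ N) :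
    Cnt F A P B.lab (((2 * N + 3 : ℕ) : ℝ) ^ 2) := by
  classical
  intro ω₀ hω₀
  have h2 : ((univ.filter fun ω => On F A ω ∧ P ω = P ω₀).image B.lab) ⊆
      ({B.a ω₀} : Finset ℝ) ×ˢ
        (Finset.Icc (⌊(2 : ℝ) ^ B.q * F.d ω₀ B.i0⌋ - (N + 1 : ℕ))
          (⌊(2 : ℝ) ^ B.q * F.d ω₀ B.i0⌋ + (N + 1 : ℕ)) ×ˢ
        Finset.Icc (⌊(2 : ℝ) ^ B.n * B.pr ω₀ (F.d ω₀)⌋ - (N + 1 : ℕ))
          (⌊(2 : ℝ) ^ B.n * B.pr ω₀ (F.d ω₀)⌋ + (N + 1 : ℕ))) := by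
    intro y hy
    rw [Finset.mem_image] at hy
    obtain ⟨ω, hω, rfl⟩ := hy
    rw [Finset.mem_filter] at hω
    obtain ⟨e1, e2, e3⟩ := h1 ω ω₀ hω.2.1 hω₀ hω.2.2
    rw [Finset.mem_product, Finset.mem_product]
    refine ⟨?_, ?_, ?_⟩
    · rw [Finset.mem_singleton]
      exact e1
    · exact floor_close67 e2 (by push_cast; exact le_rfl)
    · exact floor_close67 e3 (by push_cast; exact le_rfl)
  have h3 := Finset.card_le_card h2
  rw [Finset.card_product, Finset.card_product, Finset.card_singleton, Int.card_Icc,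
    Int.card_Icc] at h3
  have e4 : ∀ z : ℤ, (z + ((N + 1 : ℕ) : ℤ) + 1 - (z - ((N + 1 : ℕ) : ℤ))).toNat = 2 * N + 3 := by
    intro z
    have : z + ((N + 1 : ℕ) : ℤ) + 1 - (z - ((N + 1 : ℕ) : ℤ)) = ((2 * N + 3 : ℕ) : ℤ) := by
      push_cast
      ring
    rw [this, Int.toNat_natCast]
  rw [e4, e4, one_mul, ← pow_two] at h3
  have h5 : ((((univ.filter fun ω => On F A ω ∧ P ω = P ω₀).image B.lab).card : ℕ) : ℝ) ≤
      (((2 * N + 3 : ℕ) : ℝ) ^ 2) := by exact_mod_cast h3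
  refine le_of_eq_of_le ?_ h5
  congr
  funext a b
  exact Subsingleton.elim _ _

theorem modx_of (hG : GeoStmt) : ModxStmt := by
  classical
  intro J F A B α P g hOk hdet hNL hJ hA
  obtain ⟨lam, mu, nu, hlm, hline⟩ := hNL
  -- the new box, as a function of `(a, lam, mu)`
  have hch : ∀ t : ℝ × (ℝ × ℝ), ∃ r : Bool × (ℝ × (ℕ × ℕ)),
      (|t.1| ≤ 1 ∧ |t.2.1| ≤ 1 ∧ |t.2.2| ≤ 1 ∧ (|t.2.1| = 1 ∨ |t.2.2| = 1)) →
      |r.2.1| ≤ 1 ∧ r.2.2.1 ≤ r.2.2.2 ∧ B.q + B.n + g ≤ r.2.2.1 + r.2.2.2 ∧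
      r.2.2.2 ≤ B.n + (4 * g + 16) ∧
      (∀ x y : ℝ, |x| ≤ 1 / 2 ^ B.q → |y - t.1 * x| ≤ 1 / 2 ^ B.n →
        |t.2.1 * (2 ^ B.q * x) + t.2.2 * (2 ^ B.n * (y - t.1 * x))| ≤ 2 / 2 ^ (4 * g + 16) →
        |if r.1 then y else x| ≤ 512 / 2 ^ r.2.2.1 ∧
        |(if r.1 then x else y) - r.2.1 * (if r.1 then y else x)| ≤ 512 / 2 ^ r.2.2.2) ∧
      (∀ x y : ℝ, |if r.1 then y else x| ≤ 1 / 2 ^ r.2.2.1 →
        |(if r.1 then x else y) - r.2.1 * (if r.1 then y else x)| ≤ 1 / 2 ^ r.2.2.2 →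
        |x| ≤ 1 / 2 ^ B.q ∧ |y - t.1 * x| ≤ 1 / 2 ^ B.n) := by
    intro t
    by_cases ht : |t.1| ≤ 1 ∧ |t.2.1| ≤ 1 ∧ |t.2.2| ≤ 1 ∧ (|t.2.1| = 1 ∨ |t.2.2| = 1)
    · obtain ⟨sw, a', q', n', H⟩ := hG t.1 t.2.1 t.2.2 B.q B.n g ht.1 hOk.le ht.2.1 ht.2.2.1
        ht.2.2.2
      exact ⟨(sw, (a', (q', n'))), fun _ => H⟩
    · exact ⟨default, fun h => absurd h ht⟩
  choose Φ hΦ using hch
  obtain ⟨t, ht⟩ : ∃ t : F.Ω → ℝ × (ℝ × ℝ), t = fun ω => (B.a ω, (lam ω, mu ω)) := ⟨_, rfl⟩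
  have hadm : ∀ ω, On F A ω → |(t ω).1| ≤ 1 ∧ |(t ω).2.1| ≤ 1 ∧ |(t ω).2.2| ≤ 1 ∧
      (|(t ω).2.1| = 1 ∨ |(t ω).2.2| = 1) := by
    intro ω hω
    obtain ⟨h1, h2, h3, -⟩ := hline ω hω
    rw [ht]
    exact ⟨hOk.sl ω hω, h1, h2, h3⟩
  obtain ⟨k, hk⟩ : ∃ k : F.Ω → Bool × (Fin (J + 1) × Fin (J + 1)), k = fun ω =>
      ((Φ (t ω)).1, (⟨min (Φ (t ω)).2.2.1 J, by omega⟩, ⟨min (Φ (t ω)).2.2.2 J, by omega⟩)) :=
    ⟨_, rfl⟩
  obtain ⟨k₀, hk₀⟩ := pe_pigeon67 (p := F.p) k A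
  obtain ⟨A', hA'⟩ : ∃ A' : F.Ω → Prop, A' = fun ω => A ω ∧ k ω = k₀ := ⟨_, rfl⟩
  have hcard : (Fintype.card (Bool × (Fin (J + 1) × Fin (J + 1))) : ℝ) =
      2 * ((J : ℝ) + 1) ^ 2 := by
    simp only [Fintype.card_prod, Fintype.card_bool, Fintype.card_fin]
    push_cast
    ring
  rw [hcard, ← hA'] at hk₀
  have hpos : 0 < Pe F.p A' := lt_of_lt_of_le (by positivity) hk₀
  have hon : ∀ ω, On F A' ω → On F A ω := by
    intro ω hω
    rw [hA'] at hω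
    exact ⟨hω.1, hω.2.1⟩
  -- the values on `A'`
  have hval : ∀ ω, On F A' ω → (Φ (t ω)).1 = k₀.1 ∧ (Φ (t ω)).2.2.1 = (k₀.2.1 : ℕ) ∧
      (Φ (t ω)).2.2.2 = (k₀.2.2 : ℕ) := by
    intro ω hω
    obtain ⟨-, h2, -, h4, -⟩ := hΦ (t ω) (hadm ω (hon ω hω))
    have h5 : k ω = k₀ := by
      rw [hA'] at hω
      exact hω.2.2
    have e1 : min (Φ (t ω)).2.2.1 J = (Φ (t ω)).2.2.1 := min_eq_left (by omega)
    have e2 : min (Φ (t ω)).2.2.2 J = (Φ (t ω)).2.2.2 := min_eq_left (by omega)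
    rw [← h5, hk]
    exact ⟨rfl, e1.symm, e2.symm⟩
  obtain ⟨B', hB'⟩ : ∃ B' : Bx F, B' = ⟨if k₀.1 then oth B.i0 else B.i0,
    fun ω => (Φ (t ω)).2.1, k₀.2.1, k₀.2.2⟩ := ⟨_, rfl⟩
  have hi0 : ∀ v : Fin 2 → ℝ, v B'.i0 = if k₀.1 then v (oth B.i0) else v B.i0 := by
    intro v
    rw [hB']
    show v (if k₀.1 then oth B.i0 else B.i0) = _
    split_ifs <;> rfl
  have hi1 : ∀ v : Fin 2 → ℝ, v (oth B'.i0) = if k₀.1 then v B.i0 else v (oth B.i0) := by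
    intro v
    rw [hB']
    show v (oth (if k₀.1 then oth B.i0 else B.i0)) = _
    split_ifs
    · rw [oth_oth]
    · rfl
  have hpr : ∀ ω, ∀ v : Fin 2 → ℝ, B'.pr ω v = (if k₀.1 then v B.i0 else v (oth B.i0)) -
      (Φ (t ω)).2.1 * (if k₀.1 then v (oth B.i0) else v B.i0) := by
    intro ω v
    unfold Bx.pr
    rw [hi0 v, hi1 v]
    have : B'.a ω = (Φ (t ω)).2.1 := by rw [hB']
    rw [this]
  have hq : B'.q = (k₀.2.1 : ℕ) := by rw [hB']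
  have hn : B'.n = (k₀.2.2 : ℕ) := by rw [hB']
  obtain ⟨ω₁, hω₁⟩ := exists_on hpos
  obtain ⟨-, f2, f3, f4, -⟩ := hΦ (t ω₁) (hadm ω₁ (hon ω₁ hω₁))
  obtain ⟨-, g2, g3⟩ := hval ω₁ hω₁
  rw [g2, g3] at f2 f3
  rw [g3] at f4
  refine ⟨A', B', fun ω h => ?_, hk₀, ⟨?_, ?_, fun ω hω => ?_⟩, ?_, fun ω hω v hv => ?_, ?_⟩
  · rw [hA'] at h
    exact h.1
  · rw [hq, hn]
    exact f2
  · rw [hn]
    omega
  · have := (hΦ (t ω) (hadm ω (hon ω hω))).1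
    rw [hB']
    exact this
  · rw [hq, hn]
    exact f3
  · obtain ⟨-, -, -, -, -, h6⟩ := hΦ (t ω) (hadm ω (hon ω hω))
    obtain ⟨e1, e2, e3⟩ := hval ω hω
    obtain ⟨hv1, hv2⟩ := hv
    rw [hi0 v, hq] at hv1
    rw [hpr ω v, hn] at hv2
    rw [e1, e2, e3] at h6
    obtain ⟨h7, h8⟩ := h6 (v B.i0) (v (oth B.i0)) hv1 hv2
    refine ⟨h7, ?_⟩
    have : (t ω).1 = B.a ω := by rw [ht]
    rw [this] at h8
    exact h8
  · have hN : (((2 * 512 + 3 : ℕ) : ℝ)) ^ 2 ≤ (2 : ℝ) ^ 21 := by norm_num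
    refine (cnt_lab fun ω ω' hω hω' hP => ?_).mono hN
    have hAω := hon ω hω
    have hAω' := hon ω' hω'
    have hl := hdet ω ω' hAω hAω' hP
    have hll := hlm ω ω' hAω hAω' hP
    have ha : B.a ω = B.a ω' := congrArg Prod.fst hl
    have hc0 : ⌊(2 : ℝ) ^ B.q * F.d ω B.i0⌋ = ⌊(2 : ℝ) ^ B.q * F.d ω' B.i0⌋ :=
      congrArg (fun z => z.2.1) hl
    have hc1 : ⌊(2 : ℝ) ^ B.n * B.pr ω (F.d ω)⌋ = ⌊(2 : ℝ) ^ B.n * B.pr ω' (F.d ω')⌋ :=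
      congrArg (fun z => z.2.2) hl
    have hlam : lam ω = lam ω' := congrArg Prod.fst hll
    have hmu : mu ω = mu ω' := congrArg (fun z => z.2.1) hll
    have hnu : nu ω = nu ω' := congrArg (fun z => z.2.2) hll
    have htt : t ω = t ω' := by
      rw [ht]
      show (B.a ω, (lam ω, mu ω)) = (B.a ω', (lam ω', mu ω'))
      rw [ha, hlam, hmu]
    obtain ⟨-, -, -, -, h5, -⟩ := hΦ (t ω) (hadm ω hAω)
    obtain ⟨e1, e2, e3⟩ := hval ω hω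
    rw [e1, e2, e3] at h5
    -- the difference of the directions
    obtain ⟨v, hv⟩ : ∃ v : Fin 2 → ℝ, v = fun i => F.d ω i - F.d ω' i := ⟨_, rfl⟩
    have q0 : (0 : ℝ) < 2 ^ B.q := by positivity
    have n0 : (0 : ℝ) < 2 ^ B.n := by positivity
    have d0 : 2 ^ B.q * v B.i0 = B.om0 ω - B.om0 ω' := by
      unfold Bx.om0 Int.fract
      rw [hc0, hv]
      ring
    have d1 : 2 ^ B.n * (v (oth B.i0) - B.a ω * v B.i0) = B.om1 ω - B.om1 ω' := by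
      unfold Bx.om1 Int.fract
      rw [hc1, hv]
      unfold Bx.pr
      rw [← ha]
      ring
    have b0 : |2 ^ B.q * v B.i0| ≤ 1 := by
      rw [d0]
      unfold Bx.om0
      have h1 := Int.fract_nonneg ((2 : ℝ) ^ B.q * F.d ω B.i0)
      have h2 := Int.fract_lt_one ((2 : ℝ) ^ B.q * F.d ω B.i0)
      have h3 := Int.fract_nonneg ((2 : ℝ) ^ B.q * F.d ω' B.i0)
      have h4 := Int.fract_lt_one ((2 : ℝ) ^ B.q * F.d ω' B.i0)
      rw [abs_le]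
      constructor <;> linarith
    have b1 : |2 ^ B.n * (v (oth B.i0) - B.a ω * v B.i0)| ≤ 1 := by
      rw [d1]
      unfold Bx.om1
      have h1 := Int.fract_nonneg ((2 : ℝ) ^ B.n * B.pr ω (F.d ω))
      have h2 := Int.fract_lt_one ((2 : ℝ) ^ B.n * B.pr ω (F.d ω))
      have h3 := Int.fract_nonneg ((2 : ℝ) ^ B.n * B.pr ω' (F.d ω'))
      have h4 := Int.fract_lt_one ((2 : ℝ) ^ B.n * B.pr ω' (F.d ω'))
      rw [abs_le]
      constructor <;> linarith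
    have c0 : |v B.i0| ≤ 1 / 2 ^ B.q := by
      rw [le_div_iff₀ q0, mul_comm]
      rwa [abs_mul, abs_of_pos q0] at b0
    have c1 : |v (oth B.i0) - (t ω).1 * v B.i0| ≤ 1 / 2 ^ B.n := by
      have : (t ω).1 = B.a ω := by rw [ht]
      rw [this, le_div_iff₀ n0, mul_comm]
      rwa [abs_mul, abs_of_pos n0] at b1
    have c2 : |(t ω).2.1 * (2 ^ B.q * v B.i0) +
        (t ω).2.2 * (2 ^ B.n * (v (oth B.i0) - (t ω).1 * v B.i0))| ≤ 2 / 2 ^ (4 * g + 16) := by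
      have h1 : (t ω).1 = B.a ω := by rw [ht]
      have h2 : (t ω).2.1 = lam ω := by rw [ht]
      have h3 : (t ω).2.2 = mu ω := by rw [ht]
      rw [h1, h2, h3, d0, d1]
      have h4 := (hline ω hAω).2.2.2
      have h5 := (hline ω' hAω').2.2.2
      rw [← hlam, ← hmu, ← hnu] at h5
      have e : lam ω * (B.om0 ω - B.om0 ω') + mu ω * (B.om1 ω - B.om1 ω') =
          (lam ω * B.om0 ω + mu ω * B.om1 ω - nu ω) -
          (lam ω * B.om0 ω' + mu ω * B.om1 ω' - nu ω) := by ring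
      rw [e]
      refine (abs_sub _ _).trans ?_
      have e2 : (2 : ℝ) / 2 ^ (4 * g + 16) = 1 / 2 ^ (4 * g + 16) + 1 / 2 ^ (4 * g + 16) := by
        ring
      rw [e2]
      exact add_le_add h4 h5
    obtain ⟨r0, r1⟩ := h5 _ _ c0 c1 c2
    have q0' : (0 : ℝ) < 2 ^ B'.q := by positivity
    have n0' : (0 : ℝ) < 2 ^ B'.n := by positivity
    have ha' : B'.a ω = B'.a ω' := by
      rw [hB']
      show (Φ (t ω)).2.1 = (Φ (t ω')).2.1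
      rw [htt]
    refine ⟨ha', ?_, ?_⟩
    · have e : 2 ^ B'.q * F.d ω B'.i0 - 2 ^ B'.q * F.d ω' B'.i0 = 2 ^ B'.q * v B'.i0 := by
        rw [hv]
        ring
      rw [e, abs_mul, abs_of_pos q0', mul_comm, ← le_div_iff₀ q0', hi0 v, hq]
      exact_mod_cast r0
    · have e : 2 ^ B'.n * B'.pr ω (F.d ω) - 2 ^ B'.n * B'.pr ω' (F.d ω') =
          2 ^ B'.n * B'.pr ω v := by
        unfold Bx.pr
        rw [← ha', hv]
        ring
      rw [e, abs_mul, abs_of_pos n0', mul_comm, ← le_div_iff₀ n0', hpr ω v, hn]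
      exact_mod_cast r1

end Pool.PC
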