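import Pool.Agent.H54.PC.Exa
import Pool.Agent.H67.PC.Modx

/-!
# Plan C: relations between the class numbers of a chain of boxes
-/

set_option autoImplicit false

namespace Pool.PC

open Finset Real
open Pool.Agent.H49.Ent Pool.Agent.H32.Dense Pool.STK Pool.KA Pool.K2S Pool.PB Pool.KSAT

namespace Num

theorem small (I : ℕ) {h : ℝ} (hh : 0 < h) :
    ∃ τ > 0, τ ≤ h ∧ ∀ i ≤ I, ((i : ℝ) + 1) * τ ≤ 1 := by
  refine ⟨min h (1 / ((I : ℝ) + 1)), lt_min hh (by positivity), min_le_left _ _, fun i hi => ?_⟩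
  have hi' : (i : ℝ) ≤ I := by exact_mod_cast hi
  calc ((i : ℝ) + 1) * min h (1 / ((I : ℝ) + 1)) ≤ ((I : ℝ) + 1) * (1 / ((I : ℝ) + 1)) :=
        mul_le_mul (by linarith) (min_le_right _ _) (le_min hh.le (by positivity)) (by positivity)
    _ = 1 := by field_simp

variable {δ γ : ℝ} {M : ℕ} {S : PCl 2} {s : ℕ → ℝ}

/-- **The pattern.** If all chains near the class numbers have the coordinate `j` at least `Y - h`,
then `Y ≤ s j`. -/
theorem num_le (hpos : ∀ (τ : ℝ) (J : ℕ) (F : Fam 2 J) (A : F.Ω → Prop), S.St τ J F A →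
    0 < Pe F.p A) (hs : ∀ k < M, 0 ≤ s k) (hN : (S.sl ((bdec δ γ M).sld s)).Ne) {j : ℕ}
    (hb : Bar S (bdec δ γ M) j s) {Y : ℝ}
    (H : ∀ h > 0, ∃ τ > 0, ∃ J₀ : ℕ, ∀ J ≥ J₀, ∀ (F : Fam 2 J) (A : F.Ω → Prop)
      (B : ℕ → Bx F) (N : ℕ → ℝ), 0 < Pe F.p A → Dat δ γ M s τ F A B N →
      (knd M j).at δ (gp γ J) F A B N (Y - h)) : Y ≤ s j := by
  by_contra hcon
  push Not at hcon
  obtain ⟨τ, hτ, J₀, h1⟩ := H ((Y - s j) / 2) (by linarith)
  obtain ⟨ψ, hψ, J₁, h2⟩ := bar_at hb ((Y - s j) / 2) (by linarith)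
  obtain ⟨t, ht⟩ : ∃ t : ℝ, t = min (min τ ψ) (1 / 2) := ⟨_, rfl⟩
  have ht0 : 0 < t := by
    rw [ht]
    exact lt_min (lt_min hτ hψ) (by norm_num)
  have ht1 : t ≤ τ := by
    rw [ht]
    exact (min_le_left _ _).trans (min_le_left _ _)
  have ht2 : t ≤ ψ := by
    rw [ht]
    exact (min_le_left _ _).trans (min_le_right _ _)
  have ht3 : t < 1 := by
    rw [ht]
    exact lt_of_le_of_lt (min_le_right _ _) (by norm_num)
  obtain ⟨J, hJ, F, A, hA⟩ := hN t ht0 (max (max J₀ J₁) 2)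
  have hJ0 : J₀ ≤ J := ((le_max_left _ _).trans (le_max_left _ _)).trans hJ
  have hJ1 : J₁ ≤ J := ((le_max_right _ _).trans (le_max_left _ _)).trans hJ
  have hJ2 : 2 ≤ J := (le_max_right _ _).trans hJ
  obtain ⟨B, N, hD⟩ := dat_of hs ht3 hJ2 hA
  have h3 := h1 J hJ0 F A B N (hpos _ _ _ _ hA.1) (hD.mono ht1)
  have h4 := h2 J hJ1 F A (S.mono ht2 hA.1) B N (hD.mono ht2) A (fun _ h => h)
    (Pe_exp_le hψ.le A)
  apply h4
  have e : s j + (Y - s j) / 2 = Y - (Y - s j) / 2 := by ring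
  rw [e]
  exact h3

/-! ### The coordinates of a chain -/

variable {J : ℕ} {F : Fam 2 J} {A : F.Ω → Prop} {B : ℕ → Bx F} {N : ℕ → ℝ} {τ : ℝ} {k : ℕ}

theorem dat_qq (hk : k < M) (hD : Dat δ γ M s τ F A B N)
    (hτ : ((ix M 0 k 0 : ℝ) + 1) * τ ≤ 1) : (cq M s k - τ) * J ≤ (B k).q := by
  have h := hD.2 (ix M 0 k 0) hτ
  rw [knd_ix 0 hk] at h
  exact h

theorem dat_nn (hk : k < M) (hD : Dat δ γ M s τ F A B N)
    (hτ : ((ix M 1 k 0 : ℝ) + 1) * τ ≤ 1) : (cn M s k - τ) * J ≤ (B k).n := by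
  have h := hD.2 (ix M 1 k 0) hτ
  rw [knd_ix 1 hk] at h
  exact h

theorem dat_rot (hk : k < M) {w : ℚ} (hD : Dat δ γ M s τ F A B N)
    (hτ : ((ix M 2 k w : ℝ) + 1) * τ ≤ 1) : ∃ r : ℕ, (crot M s k w - τ) * J ≤ r ∧
      r + (B k).q ≤ (B k).n ∧ Clo F A (B k).a ⌊(w : ℝ) * J⌋₊ r := by
  have h := hD.2 (ix M 2 k w) hτ
  rw [knd_ix 2 hk] at h
  exact h

theorem dat_act (hk : k < M) {q : ℚ} (hD : Dat δ γ M s τ F A B N)
    (hτ : ((ix M 3 k q : ℝ) + 1) * τ ≤ 1) :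
    Cnt F A (ptk B k) (fun ω => ⌊(2 : ℝ) ^ ⌊(q : ℝ) * J⌋₊ * F.d ω (B k).i0⌋)
      (Real.exp ((cact M s k q + τ) * J)) := by
  have h := hD.2 (ix M 3 k q) hτ
  rw [knd_ix 3 hk] at h
  have e : (cact M s k q + τ) * J = -((s (ix M 3 k q) - τ) * J) := by
    unfold cact
    ring
  rw [e]
  exact h

/-! ### R1, R2 -/

section rel

variable (hpos : ∀ (τ : ℝ) (J : ℕ) (F : Fam 2 J) (A : F.Ω → Prop), S.St τ J F A →
    0 < Pe F.p A) (hs : ∀ k < M, 0 ≤ s k)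
  (hlu : ∀ i, (knd M i).lo ≤ s i ∧ s i ≤ (knd M i).up δ γ)
  (hN : (S.sl ((bdec δ γ M).sld s)).Ne) (hb : ∀ i, Bar S (bdec δ γ M) i s)

include hlu in
theorem cq_nonneg (hk : k < M) : 0 ≤ cq M s k := by
  have h := (hlu (ix M 0 k 0)).1
  rw [knd_ix 0 hk] at h
  exact h

include hlu in
theorem cn_le_one (hk : k < M) : cn M s k ≤ 1 := by
  have h := (hlu (ix M 1 k 0)).2
  rw [knd_ix 1 hk] at h
  exact h

include hpos hs hN hb in
theorem cq_le_cn (hk : k < M) : cq M s k ≤ cn M s k := by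
  refine num_le hpos hs hN (hb (ix M 1 k 0)) fun h hh => ?_
  obtain ⟨τ, hτ, hτh, hI⟩ := small (ix M 0 k 0) hh
  refine ⟨τ, hτ, 0, fun J _ F A B N hA hD => ?_⟩
  rw [knd_ix 1 hk]
  show (cq M s k - h) * J ≤ (B k).n
  have h1 := dat_qq hk hD (hI _ le_rfl)
  have h2 : ((B k).q : ℝ) ≤ (B k).n := by exact_mod_cast (hD.1.ok k hk).le
  have h3 : (cq M s k - h) * (J : ℝ) ≤ (cq M s k - τ) * J :=
    mul_le_mul_of_nonneg_right (by linarith) (Nat.cast_nonneg J)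
  linarith

/-- **(R1)** -/
theorem r1 (hk : k < M) : (∀ (τ : ℝ) (J : ℕ) (F : Fam 2 J) (A : F.Ω → Prop), S.St τ J F A →
    0 < Pe F.p A) → (∀ k < M, 0 ≤ s k) → (∀ i, (knd M i).lo ≤ s i ∧ s i ≤ (knd M i).up δ γ) →
    (S.sl ((bdec δ γ M).sld s)).Ne → (∀ i, Bar S (bdec δ γ M) i s) →
    0 ≤ cq M s k ∧ cq M s k ≤ cn M s k ∧ cn M s k ≤ 1 :=
  fun h1 h2 h3 h4 h5 => ⟨cq_nonneg h3 hk, cq_le_cn h1 h2 h4 h5 hk, cn_le_one h3 hk⟩

theorem slam_mono' {m : ℕ} {F : Fam m J} {w w' : ℕ} (hww : w ≤ w') {ω ω' : F.Ω}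
    (h : slam F w' ω = slam F w' ω') : slam F w ω = slam F w ω' := by
  have h1 := Prod.ext_iff.mp h
  have h2 := Prod.ext_iff.mp h1.2
  have h3 : F.T1 w' ω = F.T1 w' ω' := h2.2
  rcases le_total w' J with hw | hw
  · obtain ⟨K, rfl⟩ := Nat.exists_eq_add_of_le hww
    refine Prod.ext h1.1 (Prod.ext h2.1 ?_)
    show F.T1 w ω = F.T1 w ω'
    rw [Pool.KSAT.T1_div F hw ω, Pool.KSAT.T1_div F hw ω', h3]
  · have h4 : F.T ω = F.T ω' := by
      have e : ∀ ω, F.T1 w' ω = F.T ω := by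
        intro ω
        show F.T ω / 2 ^ (J - w') = F.T ω
        rw [Nat.sub_eq_zero_of_le hw, pow_zero, Nat.div_one]
      rw [e, e] at h3
      exact h3
    refine Prod.ext h1.1 (Prod.ext h2.1 ?_)
    show F.T ω / 2 ^ (J - w) = F.T ω' / 2 ^ (J - w)
    rw [h4]

include hpos hs hN hb in
/-- **(R2)** The closedness is monotone in the window. -/
theorem crot_mono (hk : k < M) {w w' : ℚ} (hw : w ≤ w') : crot M s k w ≤ crot M s k w' := by
  refine num_le hpos hs hN (hb (ix M 2 k w')) fun h hh => ?_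
  obtain ⟨τ, hτ, hτh, hI⟩ := small (ix M 2 k w) hh
  refine ⟨τ, hτ, 0, fun J _ F A B N hA hD => ?_⟩
  rw [knd_ix 2 hk]
  obtain ⟨r, h1, h2, h3⟩ := dat_rot hk hD (hI _ le_rfl)
  refine ⟨r, le_trans (mul_le_mul_of_nonneg_right (by linarith) (Nat.cast_nonneg J)) h1, h2,
    fun ω ω' g1 g2 g3 => h3 ω ω' g1 g2 (slam_mono' ?_ g3)⟩
  apply Nat.floor_mono
  exact mul_le_mul_of_nonneg_right (by exact_mod_cast hw) (Nat.cast_nonneg J)

include hlu in
theorem crot_nonneg (hk : k < M) (w : ℚ) : 0 ≤ crot M s k w := by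
  have h := (hlu (ix M 2 k w)).1
  rw [knd_ix 2 hk] at h
  exact h

include hpos hs hN hb in
/-- **(R2)** -/
theorem crot_le (hk : k < M) (w : ℚ) : cq M s k + crot M s k w ≤ cn M s k := by
  refine num_le hpos hs hN (hb (ix M 1 k 0)) fun h hh => ?_
  obtain ⟨τ, hτ, hτh, hI⟩ := small (max (ix M 2 k w) (ix M 0 k 0)) (half_pos hh)
  refine ⟨τ, hτ, 0, fun J _ F A B N hA hD => ?_⟩
  rw [knd_ix 1 hk]
  show (cq M s k + crot M s k w - h) * J ≤ (B k).n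
  obtain ⟨r, h1, h2, h3⟩ := dat_rot hk hD (hI _ (le_max_left _ _))
  have h4 := dat_qq hk hD (hI _ (le_max_right _ _))
  have h5 : (r : ℝ) + (B k).q ≤ (B k).n := by exact_mod_cast h2
  have h6 : (cq M s k + crot M s k w - h) * (J : ℝ) ≤
      (crot M s k w - τ) * J + (cq M s k - τ) * J := by
    rw [← add_mul]
    exact mul_le_mul_of_nonneg_right (by linarith) (Nat.cast_nonneg J)
  linarith

/-! ### R3 -/

include hlu in
theorem cact_nonneg (hk : k < M) (q : ℚ) : 0 ≤ cact M s k q := by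
  have h := (hlu (ix M 3 k q)).2
  rw [knd_ix 3 hk] at h
  have h' : s (ix M 3 k q) ≤ 0 := h
  unfold cact
  linarith

theorem floor_det {x y : ℝ} {a b : ℕ} (hab : a ≤ b) (h : ⌊(2 : ℝ) ^ b * x⌋ = ⌊(2 : ℝ) ^ b * y⌋) :
    ⌊(2 : ℝ) ^ a * x⌋ = ⌊(2 : ℝ) ^ a * y⌋ := by
  have e : ∀ z : ℝ, ⌊(2 : ℝ) ^ a * z⌋ = ⌊(2 : ℝ) ^ b * z⌋ / ((2 ^ (b - a) : ℕ) : ℤ) := by
    intro z
    have h1 : (2 : ℝ) ^ a * z = (2 ^ b * z) / ((2 ^ (b - a) : ℕ) : ℝ) := by
      have h2 : (2 : ℝ) ^ b = 2 ^ a * 2 ^ (b - a) := by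
        rw [← pow_add, Nat.add_sub_cancel' hab]
      rw [h2]
      push_cast
      field_simp
    rw [h1, Int.floor_div_natCast]
  rw [e, e, h]

include hpos hs hN hb in
/-- **(R3)** The count is monotone. -/
theorem cact_mono (hk : k < M) {q q' : ℚ} (hq : q ≤ q') : cact M s k q ≤ cact M s k q' := by
  have key : -cact M s k q' ≤ s (ix M 3 k q) := by
    refine num_le hpos hs hN (hb (ix M 3 k q)) fun h hh => ?_
    obtain ⟨τ, hτ, hτh, hI⟩ := small (ix M 3 k q') hh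
    refine ⟨τ, hτ, 0, fun J _ F A B N hA hD => ?_⟩
    rw [knd_ix 3 hk]
    have h1 := dat_act hk hD (hI _ le_rfl)
    have hfl : ⌊(q : ℝ) * J⌋₊ ≤ ⌊(q' : ℝ) * J⌋₊ := by
      apply Nat.floor_mono
      exact mul_le_mul_of_nonneg_right (by exact_mod_cast hq) (Nat.cast_nonneg J)
    have h2 : Cnt F A (ptk B k) (fun ω => ⌊(2 : ℝ) ^ ⌊(q : ℝ) * J⌋₊ * F.d ω (B k).i0⌋)
        (Real.exp ((cact M s k q' + τ) * J)) :=
      h1.det fun ω ω' _ _ e => floor_det hfl (congrArg Prod.snd e)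
    refine h2.mono (Real.exp_le_exp.2 ?_)
    have : (cact M s k q' + τ) * (J : ℝ) ≤ (cact M s k q' + h) * J :=
      mul_le_mul_of_nonneg_right (by linarith) (Nat.cast_nonneg J)
    linarith
  unfold cact at key ⊢
  linarith

theorem two_pow_exp (n : ℕ) : (2 : ℝ) ^ n = Real.exp (n * Real.log 2) := by
  rw [Real.exp_nat_mul, Real.exp_log (by norm_num)]

theorem log2_le_one : Real.log 2 ≤ 1 := by
  have := Real.log_le_sub_one_of_pos (show (0 : ℝ) < 2 by norm_num)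
  linarith

include hpos hs hN hb in
/-- **(R3)** The count is Lipschitz. -/
theorem cact_lip (hk : k < M) {q q' : ℚ} (hq0 : 0 ≤ q) (hq : q ≤ q') :
    cact M s k q' ≤ cact M s k q + ((q' : ℝ) - q) * Real.log 2 := by
  have hl : 0 < Real.log 2 := Real.log_pos (by norm_num)
  have hl1 := log2_le_one
  have key : -(cact M s k q + ((q' : ℝ) - q) * Real.log 2) ≤ s (ix M 3 k q') := by
    refine num_le hpos hs hN (hb (ix M 3 k q')) fun h hh => ?_
    obtain ⟨τ, hτ, hτh, hI⟩ := small (ix M 3 k q) (half_pos hh)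
    obtain ⟨J₀, hJ₀⟩ := exists_nat_gt (2 / h)
    refine ⟨τ, hτ, J₀, fun J hJ F A B N hA hD => ?_⟩
    rw [knd_ix 3 hk]
    have hJ1 : 2 / h < (J : ℝ) := hJ₀.trans_le (by exact_mod_cast hJ)
    rw [div_lt_iff₀ hh] at hJ1
    have h1 := dat_act hk hD (hI _ le_rfl)
    have hqq : (q : ℝ) ≤ q' := by exact_mod_cast hq
    have hq0' : (0 : ℝ) ≤ q := by exact_mod_cast hq0
    have hfl : ⌊(q : ℝ) * J⌋₊ ≤ ⌊(q' : ℝ) * J⌋₊ := by
      apply Nat.floor_mono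
      exact mul_le_mul_of_nonneg_right hqq (Nat.cast_nonneg J)
    have h2 : Cnt F A (fun ω => (ptk B k ω, ⌊(2 : ℝ) ^ ⌊(q : ℝ) * J⌋₊ * F.d ω (B k).i0⌋))
        (fun ω => ⌊(2 : ℝ) ^ ⌊(q' : ℝ) * J⌋₊ * F.d ω (B k).i0⌋)
        (2 ^ (⌊(q' : ℝ) * J⌋₊ - ⌊(q : ℝ) * J⌋₊)) :=
      Cnt.digits (f := fun ω => F.d ω (B k).i0) hfl fun ω ω' _ _ e => congrArg Prod.snd e
    have h3 := h1.comp h2
    refine h3.mono ?_
    rw [two_pow_exp, ← Real.exp_add]
    refine Real.exp_le_exp.2 ?_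
    have h4 : ((⌊(q' : ℝ) * J⌋₊ - ⌊(q : ℝ) * J⌋₊ : ℕ) : ℝ) ≤ ((q' : ℝ) - q) * J + 1 := by
      rw [Nat.cast_sub hfl]
      have h5 := Nat.floor_le (show (0 : ℝ) ≤ q' * J from
        mul_nonneg (hq0'.trans hqq) (Nat.cast_nonneg J))
      have h6 := Nat.lt_floor_add_one ((q : ℝ) * J)
      linarith
    have h5 : ((⌊(q' : ℝ) * J⌋₊ - ⌊(q : ℝ) * J⌋₊ : ℕ) : ℝ) * Real.log 2 ≤
        (((q' : ℝ) - q) * J + 1) * Real.log 2 := mul_le_mul_of_nonneg_right h4 hl.le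
    have h6 : τ * (J : ℝ) ≤ h / 2 * J := mul_le_mul_of_nonneg_right hτh (Nat.cast_nonneg J)
    have e : -((-(cact M s k q + ((q' : ℝ) - q) * Real.log 2) - h) * (J : ℝ)) =
        cact M s k q * J + ((q' : ℝ) - q) * J * Real.log 2 + h * J := by ring
    rw [e]
    nlinarith
  unfold cact at key ⊢
  linarith

include hpos hs hlu hN hb in
/-- **(R3)** The digits of the label are known. -/
theorem cact_zero (hk : k < M) {q : ℚ} (hq0 : 0 ≤ q) (hq : (q : ℝ) ≤ cq M s k) :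
    cact M s k q = 0 := by
  have hl : 0 < Real.log 2 := Real.log_pos (by norm_num)
  have hl1 := log2_le_one
  refine le_antisymm ?_ (cact_nonneg hlu hk q)
  have key : (0 : ℝ) ≤ s (ix M 3 k q) := by
    refine num_le hpos hs hN (hb (ix M 3 k q)) fun h hh => ?_
    obtain ⟨τ, hτ, hτh, hI⟩ := small (ix M 0 k 0) (half_pos hh)
    obtain ⟨J₀, hJ₀⟩ := exists_nat_gt (2 / h)
    refine ⟨τ, hτ, J₀, fun J hJ F A B N hA hD => ?_⟩
    rw [knd_ix 3 hk]
    have hJ1 : 2 / h < (J : ℝ) := hJ₀.trans_le (by exact_mod_cast hJ)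
    rw [div_lt_iff₀ hh] at hJ1
    have h1 := dat_qq hk hD (hI _ le_rfl)
    have h2 : DetA F A (ptk B k) (fun ω => ⌊(2 : ℝ) ^ (B k).q * F.d ω (B k).i0⌋) :=
      fun ω ω' g1 g2 e =>
        congrArg (fun z => z.2.1) (ptk_det_lab (A := A) B (le_refl k) ω ω' g1 g2 e)
    have h3 : Cnt F A (ptk B k)
        (fun ω => ⌊(2 : ℝ) ^ (max (B k).q ⌊(q : ℝ) * J⌋₊) * F.d ω (B k).i0⌋)
        (2 ^ (max (B k).q ⌊(q : ℝ) * J⌋₊ - (B k).q)) :=
      Cnt.digits (f := fun ω => F.d ω (B k).i0) (le_max_left _ _) h2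
    have h4 : Cnt F A (ptk B k) (fun ω => ⌊(2 : ℝ) ^ ⌊(q : ℝ) * J⌋₊ * F.d ω (B k).i0⌋)
        (2 ^ (max (B k).q ⌊(q : ℝ) * J⌋₊ - (B k).q)) :=
      h3.det fun ω ω' _ _ e => floor_det (le_max_right _ _) (congrArg Prod.snd e)
    refine h4.mono ?_
    rw [two_pow_exp]
    refine Real.exp_le_exp.2 ?_
    have hq0' : (0 : ℝ) ≤ q := by exact_mod_cast hq0
    have h5 := Nat.floor_le (show (0 : ℝ) ≤ q * J by positivity)
    have h6 : (q : ℝ) * J ≤ cq M s k * J := mul_le_mul_of_nonneg_right hq (Nat.cast_nonneg J)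
    have h7 : τ * (J : ℝ) ≤ h / 2 * J := mul_le_mul_of_nonneg_right hτh (Nat.cast_nonneg J)
    have h8 : ((max (B k).q ⌊(q : ℝ) * J⌋₊ - (B k).q : ℕ) : ℝ) ≤ h / 2 * J := by
      rw [Nat.cast_sub (le_max_left _ _), Nat.cast_max]
      have h9 : max ((B k).q : ℝ) (⌊(q : ℝ) * J⌋₊ : ℝ) ≤ (B k).q + h / 2 * J := by
        refine max_le ?_ ?_
        · have : 0 ≤ h / 2 * J := by positivity
          linarith
        · have e : (cq M s k - τ) * (J : ℝ) = cq M s k * J - τ * J := by ring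
          linarith
      linarith
    have h9 := mul_le_mul_of_nonneg_right h8 hl.le
    have h10 : h / 2 * J * Real.log 2 ≤ h / 2 * J * 1 :=
      mul_le_mul_of_nonneg_left hl1 (by positivity)
    have h11 : 0 ≤ h * J := by positivity
    linarith
  unfold cact
  linarith

/-! ### R4 -/

theorem sub_q {J : ℕ} {F : Fam 2 J} {A : F.Ω → Prop} {B B' : Bx F} (hS : B'.Sub B A)
    (hqn : B.q ≤ B.n) {ω : F.Ω} (hω : On F A ω) (ha : |B.a ω| ≤ 1) : B.q ≤ B'.q + 1 := by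
  obtain ⟨v, hv⟩ : ∃ v : Fin 2 → ℝ, v = fun i => if i = B'.i0 then 1 / 2 ^ B'.q else
    B'.a ω * (1 / 2 ^ B'.q) := ⟨_, rfl⟩
  have hoth : oth B'.i0 ≠ B'.i0 := by
    generalize B'.i0 = i
    fin_cases i <;> simp [oth]
  have h0 : v B'.i0 = 1 / 2 ^ B'.q := by
    rw [hv]
    exact if_pos rfl
  have h1 : v (oth B'.i0) = B'.a ω * (1 / 2 ^ B'.q) := by
    rw [hv]
    exact if_neg hoth
  have hin : B'.In ω 1 v := by
    refine ⟨?_, ?_⟩
    · rw [h0, abs_of_pos (by positivity)]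
    · unfold Bx.pr
      rw [h0, h1, sub_self, abs_zero]
      positivity
  obtain ⟨k1, k2⟩ := hS ω hω v hin
  have k3 : ∀ i, |v i| ≤ 2 / 2 ^ B.q := by
    have e1 : (1 : ℝ) / 2 ^ B.n ≤ 1 / 2 ^ B.q :=
      one_div_le_one_div_of_le (by positivity) (pow_le_pow_right₀ (by norm_num) hqn)
    have e2 : (2 : ℝ) / 2 ^ B.q = 1 / 2 ^ B.q + 1 / 2 ^ B.q := by ring
    have e3 : (0 : ℝ) < 1 / 2 ^ B.q := by positivity
    have k4 : |v (oth B.i0)| ≤ 2 / 2 ^ B.q := by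
      unfold Bx.pr at k2
      have e4 : v (oth B.i0) = (v (oth B.i0) - B.a ω * v B.i0) + B.a ω * v B.i0 := by ring
      rw [e4, e2]
      refine (abs_add_le _ _).trans (add_le_add (k2.trans e1) ?_)
      rw [abs_mul]
      calc |B.a ω| * |v B.i0| ≤ 1 * (1 / 2 ^ B.q) :=
            mul_le_mul ha k1 (abs_nonneg _) (by norm_num)
        _ = _ := one_mul _
    intro i
    have : i = B.i0 ∨ i = oth B.i0 := by
      generalize B.i0 = j
      fin_cases i <;> fin_cases j <;> simp [oth]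
    rcases this with rfl | rfl
    · linarith
    · exact k4
  have k5 := k3 B'.i0
  rw [h0, abs_of_pos (by positivity), div_le_div_iff₀ (by positivity) (by positivity),
    one_mul, ← pow_succ'] at k5
  exact (pow_le_pow_iff_right₀ (by norm_num : (1 : ℝ) < 2)).1 k5

theorem sub_n {J : ℕ} {F : Fam 2 J} {A : F.Ω → Prop} {B B' : Bx F} (hS : B'.Sub B A)
    (hqn : B'.q ≤ B'.n) {ω : F.Ω} (hω : On F A ω) (ha : |B'.a ω| ≤ 1) : B.n ≤ B'.n + 1 := by
  have hoth : oth B.i0 ≠ B.i0 := by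
    generalize B.i0 = i
    fin_cases i <;> simp [oth]
  obtain ⟨v, hv⟩ : ∃ v : Fin 2 → ℝ, v = fun i => if i = B.i0 then 0 else 1 / 2 ^ (B'.n + 1) :=
    ⟨_, rfl⟩
  have h0 : v B.i0 = 0 := by
    rw [hv]
    exact if_pos rfl
  have h1 : v (oth B.i0) = 1 / 2 ^ (B'.n + 1) := by
    rw [hv]
    exact if_neg hoth
  have h2 : ∀ i, |v i| ≤ 1 / 2 ^ (B'.n + 1) := by
    intro i
    rw [hv]
    show |if i = B.i0 then (0 : ℝ) else 1 / 2 ^ (B'.n + 1)| ≤ _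
    split_ifs
    · rw [abs_zero]
      positivity
    · rw [abs_of_pos (by positivity)]
  have hin : B'.In ω 1 v := by
    refine ⟨(h2 _).trans ?_, ?_⟩
    · exact one_div_le_one_div_of_le (by positivity)
        (pow_le_pow_right₀ (by norm_num) (by omega))
    · unfold Bx.pr
      refine (abs_sub _ _).trans ?_
      rw [abs_mul]
      have e1 : |B'.a ω| * |v B'.i0| ≤ 1 * (1 / 2 ^ (B'.n + 1)) :=
        mul_le_mul ha (h2 _) (abs_nonneg _) (by norm_num)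
      have e2 : (1 : ℝ) / 2 ^ B'.n = 1 / 2 ^ (B'.n + 1) + 1 / 2 ^ (B'.n + 1) := by
        rw [pow_succ]
        field_simp
        norm_num
      rw [e2]
      exact add_le_add (h2 _) (by linarith)
  obtain ⟨-, k2⟩ := hS ω hω v hin
  unfold Bx.pr at k2
  rw [h0, h1, mul_zero, sub_zero, abs_of_pos (by positivity),
    one_div_le_one_div (by positivity) (by positivity)] at k2
  exact (pow_le_pow_iff_right₀ (by norm_num : (1 : ℝ) < 2)).1 k2

include hpos hs hN hb in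
/-- **(R4)** -/
theorem cq_succ (hk : k + 1 < M) : min (cq M s k + γ) 1 ≤ cq M s (k + 1) := by
  refine num_le hpos hs hN (hb (ix M 0 (k + 1) 0)) fun h hh => ?_
  obtain ⟨τ, hτ, hτh, hI⟩ := small (ix M 0 k 0) (half_pos hh)
  obtain ⟨J₀, hJ₀⟩ := exists_nat_gt (4 / h)
  refine ⟨τ, hτ, J₀, fun J hJ F A B N hA hD => ?_⟩
  rw [knd_ix 0 hk]
  have hJ1 : 4 / h < (J : ℝ) := hJ₀.trans_le (by exact_mod_cast hJ)
  rw [div_lt_iff₀ hh] at hJ1
  obtain ⟨ω, hω⟩ := exists_on hA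
  have hk' : k < M := by omega
  have h1 := dat_qq hk' hD (hI _ le_rfl)
  have h2 := sub_q (hD.1.ins k hk) ((hD.1.ok k hk').sh _).le hω
    ((hD.1.ok k hk').sl ω hω)
  rw [Bx.sh_q] at h2
  have h3 : (min ((B k).q + gp γ J) J : ℕ) ≤ (B (k + 1)).q + 1 := h2
  have h4 : min (((B k).q : ℝ) + (gp γ J : ℝ)) (J : ℝ) ≤ (B (k + 1)).q + 1 := by
    exact_mod_cast h3
  have h5 : γ * J - 1 ≤ gp γ J := by
    have := Nat.lt_floor_add_one (γ * J)
    unfold gp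
    linarith
  have h7 : τ * (J : ℝ) ≤ h / 2 * J := mul_le_mul_of_nonneg_right hτh (Nat.cast_nonneg J)
  show (min (cq M s k + γ) 1 - h) * (J : ℝ) ≤ (B (k + 1)).q
  have hJ0 : (0 : ℝ) ≤ J := Nat.cast_nonneg J
  have h8 : min (cq M s k + γ) 1 * (J : ℝ) ≤ min ((cq M s k + γ) * J) J := by
    refine le_min (mul_le_mul_of_nonneg_right (min_le_left _ _) hJ0) ?_
    have := mul_le_mul_of_nonneg_right (min_le_right (cq M s k + γ) 1) hJ0
    linarith
  have h9 : min ((cq M s k + γ) * J) (J : ℝ) ≤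
      min (((B k).q : ℝ) + (gp γ J : ℝ)) (J : ℝ) + (h / 2 * J + 1) := by
    rcases le_total (((B k).q : ℝ) + (gp γ J : ℝ)) (J : ℝ) with h10 | h10
    · rw [min_eq_left h10]
      refine (min_le_left _ _).trans ?_
      have e : (cq M s k - τ) * (J : ℝ) = cq M s k * J - τ * J := by ring
      linarith
    · rw [min_eq_right h10]
      refine (min_le_right _ _).trans ?_
      have : 0 ≤ h / 2 * J := by positivity
      linarith
  have e : (min (cq M s k + γ) 1 - h) * (J : ℝ) = min (cq M s k + γ) 1 * J - h * J := by ring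
  rw [e]
  linarith

include hpos hs hN hb in
/-- **(R4)** -/
theorem cn_succ (hk : k + 1 < M) : min (cn M s k + γ) 1 ≤ cn M s (k + 1) := by
  refine num_le hpos hs hN (hb (ix M 1 (k + 1) 0)) fun h hh => ?_
  obtain ⟨τ, hτ, hτh, hI⟩ := small (ix M 1 k 0) (half_pos hh)
  obtain ⟨J₀, hJ₀⟩ := exists_nat_gt (4 / h)
  refine ⟨τ, hτ, J₀, fun J hJ F A B N hA hD => ?_⟩
  rw [knd_ix 1 hk]
  have hJ1 : 4 / h < (J : ℝ) := hJ₀.trans_le (by exact_mod_cast hJ)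
  rw [div_lt_iff₀ hh] at hJ1
  obtain ⟨ω, hω⟩ := exists_on hA
  have hk' : k < M := by omega
  have h1 := dat_nn hk' hD (hI _ le_rfl)
  have h2 := sub_n (hD.1.ins k hk) (hD.1.ok (k + 1) hk).le hω
    ((hD.1.ok (k + 1) hk).sl ω hω)
  rw [Bx.sh_n] at h2
  have h3 : (min ((B k).n + gp γ J) J : ℕ) ≤ (B (k + 1)).n + 1 := h2
  have h4 : min (((B k).n : ℝ) + (gp γ J : ℝ)) (J : ℝ) ≤ (B (k + 1)).n + 1 := by
    exact_mod_cast h3
  have h5 : γ * J - 1 ≤ gp γ J := by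
    have := Nat.lt_floor_add_one (γ * J)
    unfold gp
    linarith
  have h7 : τ * (J : ℝ) ≤ h / 2 * J := mul_le_mul_of_nonneg_right hτh (Nat.cast_nonneg J)
  show (min (cn M s k + γ) 1 - h) * (J : ℝ) ≤ (B (k + 1)).n
  have hJ0 : (0 : ℝ) ≤ J := Nat.cast_nonneg J
  have h8 : min (cn M s k + γ) 1 * (J : ℝ) ≤ min ((cn M s k + γ) * J) J := by
    refine le_min (mul_le_mul_of_nonneg_right (min_le_left _ _) hJ0) ?_
    have := mul_le_mul_of_nonneg_right (min_le_right (cn M s k + γ) 1) hJ0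
    linarith
  have h9 : min ((cn M s k + γ) * J) (J : ℝ) ≤
      min (((B k).n : ℝ) + (gp γ J : ℝ)) (J : ℝ) + (h / 2 * J + 1) := by
    rcases le_total (((B k).n : ℝ) + (gp γ J : ℝ)) (J : ℝ) with h10 | h10
    · rw [min_eq_left h10]
      refine (min_le_left _ _).trans ?_
      have e : (cn M s k - τ) * (J : ℝ) = cn M s k * J - τ * J := by ring
      linarith
    · rw [min_eq_right h10]
      refine (min_le_right _ _).trans ?_
      have : 0 ≤ h / 2 * J := by positivity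
      linarith
  have e : (min (cn M s k + γ) 1 - h) * (J : ℝ) = min (cn M s k + γ) 1 * J - h * J := by ring
  rw [e]
  linarith

end rel

end Num

end Pool.PC
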