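import Pool.Agent.H54.PC.Out
import Pool.Agent.H67.PC.Num
import Pool.Agent.H85.PC.NumR

/-!
# Plan C: the relations between the class numbers
-/

set_option autoImplicit false

namespace Pool.PC

open Finset Real
open Pool.Agent.H49.Ent Pool.Agent.H32.Dense Pool.STK Pool.KA Pool.K2S Pool.PB Pool.KSAT

/-- **The relations between the class numbers.** -/
theorem numR {δ γ : ℝ} (hδ : 0 < δ) {M : ℕ} {S : PCl 2} {s : ℕ → ℝ}
    (hpos : ∀ (τ : ℝ) (J : ℕ) (F : Fam 2 J) (A : F.Ω → Prop), S.St τ J F A → 0 < Pe F.p A)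
    (hlu : ∀ i, (knd M i).lo ≤ s i ∧ s i ≤ (knd M i).up δ γ) (hs : ∀ k < M, 0 ≤ s k)
    (hN : (S.sl ((bdec δ γ M).sld s)).Ne) (hb : ∀ i, Bar S (bdec δ γ M) i s) :
    NumR M δ γ s where
  q0 k hk := Num.cq_nonneg hlu hk
  qn k hk := Num.cq_le_cn hpos hs hN hb hk
  n1 k hk := Num.cn_le_one hlu hk
  qg k hk := Num.cq_succ hpos hs hN hb hk
  ng k hk := Num.cn_succ hpos hs hN hb hk
  rot0 k hk w _ _ := Num.crot_nonneg hlu hk w
  rotn k hk w _ _ := by linarith [Num.crot_le hpos hs hN hb hk w]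
  rotm k hk w w' _ h _ := Num.crot_mono hpos hs hN hb hk h
  act0 k hk x h0 h1 := Num.cact_zero hpos hs hlu hN hb hk h0 h1
  actm k hk x y _ h _ := Num.cact_mono hpos hs hN hb hk h
  actl k hk x y h0 h _ := by linarith [Num.cact_lip hpos hs hN hb hk h0 h]
  actd k hk x h0 h1 := act_num hδ hk hlu hs hN hb h0 (by exact_mod_cast h1)

end Pool.PC
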