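import Pool.Agent.H67.PC.Modx

/-!
# Plan C, row BOX: a finer box, if the long coordinate is known better
-/

set_option autoImplicit false

namespace Pool.PC

open Finset Real
open Pool.Agent.H49.Ent Pool.Agent.H32.Dense Pool.STK Pool.KA Pool.K2S

theorem moda : ModaStmt := by
  intro J F A B α P x L hOk hdet hJ hcnt
  have hL : (0 : ℝ) < Real.exp L := Real.exp_pos L
  have hlab : ∀ ω ω', On F A ω → On F A ω' → P ω = P ω' → B.a ω = B.a ω' ∧
      ⌊(2 : ℝ) ^ B.q * F.d ω B.i0⌋ = ⌊(2 : ℝ) ^ B.q * F.d ω' B.i0⌋ ∧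
      ⌊(2 : ℝ) ^ B.n * B.pr ω (F.d ω)⌋ = ⌊(2 : ℝ) ^ B.n * B.pr ω' (F.d ω')⌋ := by
    intro ω ω' h1 h2 h3
    have h4 := hdet ω ω' h1 h2 h3
    exact ⟨congrArg Prod.fst h4, congrArg (fun z => z.2.1) h4, congrArg (fun z => z.2.2) h4⟩
  rcases le_or_gt (B.q + x) B.n with hqn | hqn
  · refine ⟨⟨B.i0, B.a, B.q + x, B.n⟩, ⟨hqn, hOk.leJ, hOk.sl⟩, ?_, ?_, ?_⟩
    · show B.q + B.n + x ≤ B.q + x + B.n + 1
      omega
    · rintro ω - v ⟨h1, h2⟩
      refine ⟨h1.trans ?_, h2⟩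
      show (1 : ℝ) / 2 ^ (B.q + x) ≤ 1 / 2 ^ B.q
      apply one_div_le_one_div_of_le (by positivity)
      exact pow_le_pow_right₀ (by norm_num) (by omega)
    · have h1 : Cnt F A P (Bx.lab ⟨B.i0, B.a, B.q + x, B.n⟩) (Real.exp L) := by
        refine hcnt.det fun ω ω' h1 h2 h3 => ?_
        have h4 : P ω = P ω' := congrArg Prod.fst h3
        have h5 : ⌊(2 : ℝ) ^ (B.q + x) * F.d ω B.i0⌋ = ⌊(2 : ℝ) ^ (B.q + x) * F.d ω' B.i0⌋ :=
          congrArg Prod.snd h3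
        obtain ⟨e1, -, e3⟩ := hlab ω ω' h1 h2 h4
        show (B.a ω, (⌊(2 : ℝ) ^ (B.q + x) * F.d ω B.i0⌋, ⌊(2 : ℝ) ^ B.n * B.pr ω (F.d ω)⌋)) =
          (B.a ω', (⌊(2 : ℝ) ^ (B.q + x) * F.d ω' B.i0⌋, ⌊(2 : ℝ) ^ B.n * B.pr ω' (F.d ω')⌋))
        rw [e1, h5, e3]
      refine h1.mono ?_
      nlinarith
  · refine ⟨⟨oth B.i0, fun _ => 0, B.n + 1, B.q + x⟩, ⟨hqn, hJ, fun ω _ => by simp⟩, ?_, ?_, ?_⟩
    · show B.q + B.n + x ≤ B.n + 1 + (B.q + x) + 1
      omega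
    · rintro ω hω v ⟨h1, h2⟩
      have h1' : |v (oth B.i0)| ≤ 1 / 2 ^ (B.n + 1) := h1
      have h2' : |v (oth (oth B.i0)) - 0 * v (oth B.i0)| ≤ 1 / 2 ^ (B.q + x) := h2
      rw [oth_oth, zero_mul, sub_zero] at h2'
      have h3 : (1 : ℝ) / 2 ^ (B.q + x) ≤ 1 / 2 ^ (B.n + 1) := by
        apply one_div_le_one_div_of_le (by positivity)
        exact pow_le_pow_right₀ (by norm_num) (by omega)
      have h4 : (1 : ℝ) / 2 ^ (B.n + 1) + 1 / 2 ^ (B.n + 1) = 1 / 2 ^ B.n := by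
        rw [pow_succ]
        field_simp
        norm_num
      refine ⟨h2'.trans ?_, ?_⟩
      · apply one_div_le_one_div_of_le (by positivity)
        exact pow_le_pow_right₀ (by norm_num) (by omega)
      · unfold Bx.pr
        refine (abs_sub _ _).trans ?_
        rw [abs_mul]
        have h5 : |B.a ω| * |v B.i0| ≤ 1 * |v B.i0| :=
          mul_le_mul_of_nonneg_right (hOk.sl ω hω) (abs_nonneg _)
        linarith
    · have h1 : Cnt F A (fun ω => (P ω, ⌊(2 : ℝ) ^ (B.q + x) * F.d ω B.i0⌋))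
          (fun ω => ⌊(2 : ℝ) ^ (B.n + 1) * F.d ω (oth B.i0)⌋) (2 * (3 : ℕ) + 1) := by
        refine Cnt.int fun ω ω' h1 h2 h3 => ?_
        have h4 : P ω = P ω' := congrArg Prod.fst h3
        have h5 : ⌊(2 : ℝ) ^ (B.q + x) * F.d ω B.i0⌋ = ⌊(2 : ℝ) ^ (B.q + x) * F.d ω' B.i0⌋ :=
          congrArg Prod.snd h3
        obtain ⟨e1, -, e3⟩ := hlab ω ω' h1 h2 h4
        have q0 : (0 : ℝ) < 2 ^ (B.q + x) := by positivity
        have n0 : (0 : ℝ) < 2 ^ B.n := by positivity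
        have f1 : |(2 : ℝ) ^ (B.q + x) * F.d ω B.i0 - 2 ^ (B.q + x) * F.d ω' B.i0| < 1 :=
          Int.abs_sub_lt_one_of_floor_eq_floor h5
        have f2 : |(2 : ℝ) ^ B.n * B.pr ω (F.d ω) - 2 ^ B.n * B.pr ω' (F.d ω')| < 1 :=
          Int.abs_sub_lt_one_of_floor_eq_floor e3
        have g1 : |F.d ω B.i0 - F.d ω' B.i0| ≤ 1 / 2 ^ (B.n + 1) := by
          rw [← mul_sub, abs_mul, abs_of_pos q0] at f1
          have : |F.d ω B.i0 - F.d ω' B.i0| ≤ 1 / 2 ^ (B.q + x) := by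
            rw [le_div_iff₀ q0]
            linarith
          refine this.trans ?_
          apply one_div_le_one_div_of_le (by positivity)
          exact pow_le_pow_right₀ (by norm_num) (by omega)
        have g2 : |B.pr ω (F.d ω) - B.pr ω' (F.d ω')| ≤ 1 / 2 ^ B.n := by
          rw [← mul_sub, abs_mul, abs_of_pos n0] at f2
          rw [le_div_iff₀ n0]
          linarith
        have g3 : F.d ω (oth B.i0) - F.d ω' (oth B.i0) =
            (B.pr ω (F.d ω) - B.pr ω' (F.d ω')) + B.a ω * (F.d ω B.i0 - F.d ω' B.i0) := by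
          unfold Bx.pr
          rw [← e1]
          ring
        have g4 : |F.d ω (oth B.i0) - F.d ω' (oth B.i0)| ≤ 1 / 2 ^ B.n + 1 / 2 ^ (B.n + 1) := by
          rw [g3]
          refine (abs_add_le _ _).trans (add_le_add g2 ?_)
          rw [abs_mul]
          have : |B.a ω| * |F.d ω B.i0 - F.d ω' B.i0| ≤ 1 * |F.d ω B.i0 - F.d ω' B.i0| :=
            mul_le_mul_of_nonneg_right (hOk.sl ω h1) (abs_nonneg _)
          linarith
        have g5 : (2 : ℝ) ^ (B.n + 1) * F.d ω (oth B.i0) -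
            2 ^ (B.n + 1) * F.d ω' (oth B.i0) ≤ 3 := by
          rw [← mul_sub]
          have h6 := (le_abs_self _).trans g4
          have n1 : (0 : ℝ) < 2 ^ (B.n + 1) := by positivity
          refine (mul_le_mul_of_nonneg_left h6 n1.le).trans ?_
          rw [mul_add, pow_succ]
          have e : (2 : ℝ) ^ B.n * 2 * (1 / 2 ^ B.n) + 2 ^ B.n * 2 * (1 / (2 ^ B.n * 2)) = 3 := by
            field_simp
            norm_num
          exact e.le
        have h7 := Int.floor_le ((2 : ℝ) ^ (B.n + 1) * F.d ω (oth B.i0))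
        have h8 := Int.lt_floor_add_one ((2 : ℝ) ^ (B.n + 1) * F.d ω' (oth B.i0))
        have h9 : (((⌊(2 : ℝ) ^ (B.n + 1) * F.d ω (oth B.i0)⌋ -
            ⌊(2 : ℝ) ^ (B.n + 1) * F.d ω' (oth B.i0)⌋ : ℤ)) : ℝ) < ((4 : ℤ) : ℝ) := by
          push_cast
          linarith
        have := Int.cast_lt.1 h9
        show ⌊(2 : ℝ) ^ (B.n + 1) * F.d ω (oth B.i0)⌋ -
            ⌊(2 : ℝ) ^ (B.n + 1) * F.d ω' (oth B.i0)⌋ ≤ ((3 : ℕ) : ℤ)
        push_cast
        omega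
      have h2 : Cnt F A P (Bx.lab (F := F) ⟨oth B.i0, fun _ => 0, B.n + 1, B.q + x⟩)
          (Real.exp L * (2 * (3 : ℕ) + 1)) := by
        refine (hcnt.pair h1).det fun ω ω' h1 h2 h3 => ?_
        have h5 : ⌊(2 : ℝ) ^ (B.q + x) * F.d ω B.i0⌋ = ⌊(2 : ℝ) ^ (B.q + x) * F.d ω' B.i0⌋ :=
          congrArg (fun z => z.2.1) h3
        have h6 : ⌊(2 : ℝ) ^ (B.n + 1) * F.d ω (oth B.i0)⌋ =
            ⌊(2 : ℝ) ^ (B.n + 1) * F.d ω' (oth B.i0)⌋ := congrArg (fun z => z.2.2) h3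
        have e : ∀ ω, Bx.lab (F := F) ⟨oth B.i0, fun _ => 0, B.n + 1, B.q + x⟩ ω =
            (0, (⌊(2 : ℝ) ^ (B.n + 1) * F.d ω (oth B.i0)⌋,
              ⌊(2 : ℝ) ^ (B.q + x) * F.d ω B.i0⌋)) := by
          intro ω
          unfold Bx.lab Bx.pr
          simp only [oth_oth, zero_mul, sub_zero]
        rw [e, e, h5, h6]
      refine h2.mono ?_
      push_cast
      nlinarith

end Pool.PC
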