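import Pool.Agent.H34.PC.Geo
import Pool.Agent.H54.PC.Chain
import Pool.Agent.H67.PC.Moda

/-!
# Plan C, row BOX: better chains of boxes

If the fans of the box of level `k` are near lines, or if digits of the direction behind this box
are known, given the exact point and the labels up to level `k`, then there is a chain with a better
score at level `k`, the same boxes below, and normalised scores which do not drop above.
-/

set_option autoImplicit false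

namespace Pool.PC

open Finset Real
open Pool.Agent.H49.Ent Pool.Agent.H32.Dense Pool.STK Pool.KA Pool.K2S

variable {J : ℕ} {F : Fam 2 J}

/-- The chain `B', N'` is better than `B, N` by `x` at level `k`, the same below, and the normalised
scores do not drop above. -/
def Up (M g k : ℕ) (δ x : ℝ) (B B' : ℕ → Bx F) (N N' : ℕ → ℝ) : Prop :=
  (∀ i < k, B' i = B i ∧ N' i = N i) ∧ sco δ B N k + x ≤ sco δ B' N' k ∧
    ∀ i, k ≤ i → i < M → sco δ B' N' k + (k : ℝ) * (2 * g * Real.log 2 / δ) ≤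
      sco δ B' N' i + (i : ℝ) * (2 * g * Real.log 2 / δ)

theorem sco_rep_k (δ : ℝ) (B : ℕ → Bx F) (N : ℕ → ℝ) (k : ℕ) (B' : Bx F) (g : ℕ) (L : ℝ) :
    sco δ (rep B k B' g) (repN N k L g) k =
      ((B'.q : ℝ) + B'.n) * Real.log 2 - L / δ := by
  have e1 := rep_ge (B := B) (k := k) (B' := B') (g := g) 0
  have e2 := repN_ge (N := N) (k := k) (L := L) (g := g) 0
  rw [Nat.add_zero] at e1 e2
  unfold sco
  rw [e1, e2]
  show (((B'.q : ℕ) : ℝ) + ((B'.n : ℕ) : ℝ)) * Real.log 2 - _ = _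
  push_cast
  ring

theorem sco_rep_ge {δ : ℝ} (hδ : 0 < δ) (B : ℕ → Bx F) (N : ℕ → ℝ) (k : ℕ) {B' : Bx F}
    {A : F.Ω → Prop} (hO : B'.Ok A) (g : ℕ) (L : ℝ) {i : ℕ} (hi : k ≤ i) :
    sco δ (rep B k B' g) (repN N k L g) k + (k : ℝ) * (2 * g * Real.log 2 / δ) ≤
      sco δ (rep B k B' g) (repN N k L g) i + (i : ℝ) * (2 * g * Real.log 2 / δ) := by
  obtain ⟨j, rfl⟩ := Nat.exists_eq_add_of_le hi
  rw [sco_rep_k]
  obtain ⟨h1, h2⟩ := Bx.its_mono hO g j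
  unfold sco
  rw [rep_ge, repN_ge]
  have h1' : (B'.q : ℝ) ≤ (B'.its g j).q := by exact_mod_cast h1
  have h2' : (B'.n : ℝ) ≤ (B'.its g j).n := by exact_mod_cast h2
  have hl : 0 ≤ Real.log 2 := Real.log_nonneg (by norm_num)
  have h3 : ((B'.q : ℝ) + B'.n) * Real.log 2 ≤
      (((B'.its g j).q : ℝ) + (B'.its g j).n) * Real.log 2 :=
    mul_le_mul_of_nonneg_right (add_le_add h1' h2') hl
  have e : (L + (j : ℝ) * (2 * g * Real.log 2)) / δ =
      L / δ + (j : ℝ) * (2 * g * Real.log 2 / δ) := by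
    field_simp
  rw [e]
  push_cast
  linarith

theorem up_rep {δ : ℝ} (hδ : 0 < δ) {M g k : ℕ} {B : ℕ → Bx F} {N : ℕ → ℝ} {B' : Bx F}
    {A : F.Ω → Prop} (hO : B'.Ok A) {L x : ℝ}
    (h : sco δ B N k + x ≤ ((B'.q : ℝ) + B'.n) * Real.log 2 - L / δ) :
    Up M g k δ x B (rep B k B' g) N (repN N k L g) := by
  refine ⟨fun i hi => ⟨rep_lt hi, repN_lt hi⟩, ?_, fun i hi _ => sco_rep_ge hδ B N k hO g L hi⟩
  rw [sco_rep_k]
  exact h

theorem Bx.Ok.mono' {B : Bx F} {A A' : F.Ω → Prop} (h : B.Ok A) (hA : ∀ ω, A' ω → A ω) :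
    B.Ok A' := h.sub hA

/-- **(EXC)** The fans of level `k` are near lines: a better chain. -/
theorem exc {A E : F.Ω → Prop} {M g k : ℕ} {B : ℕ → Bx F} {N : ℕ → ℝ} {δ : ℝ} (hδ : 0 < δ)
    (h : Chn F A M g B N) (hk : k < M) (hE : ∀ ω, E ω → A ω) (hE0 : 0 < Pe F.p E) {g' : ℕ}
    (hnl : NearLine F (B k) E (ptk B k) (4 * g' + 16)) (hJ : (B k).n + (4 * g' + 16) ≤ J) :
    ∃ (E' : F.Ω → Prop) (B' : ℕ → Bx F) (N' : ℕ → ℝ), (∀ ω, E' ω → E ω) ∧
      Pe F.p E / (2 * ((J : ℝ) + 1) ^ 2) ≤ Pe F.p E' ∧ Chn F E' M g B' N' ∧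
      Up M g k δ (g' * Real.log 2 - 21 * Real.log 2 / δ) B B' N N' := by
  have hc := h.sub hE
  obtain ⟨E', B₁, h1, h2, h3, h4, h5, h6⟩ := modx_of geo_stmt34 J F E (B k) _ (ptk B k) g'
    (hc.ok k hk) (ptk_det_lab B le_rfl) hnl hJ hE0
  have hL : (0 : ℝ) ≤ 21 * Real.log 2 := by positivity
  have e21 : (2 : ℝ) ^ 21 = Real.exp (21 * Real.log 2) := by
    rw [show (21 : ℝ) * Real.log 2 = ((21 : ℕ) : ℝ) * Real.log 2 by norm_num, Real.exp_nat_mul,
      Real.exp_log (by norm_num)]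
  rw [e21] at h6
  refine ⟨E', _, _, h1, h2, (hc.sub h1).fin hk h3 h5 hL h6, ?_⟩
  refine up_rep hδ h3 ?_
  have h7 : ((B k).q : ℝ) + (B k).n + g' ≤ (B₁.q : ℝ) + B₁.n := by exact_mod_cast h4
  have hl : 0 ≤ Real.log 2 := Real.log_nonneg (by norm_num)
  have h8 := mul_le_mul_of_nonneg_right h7 hl
  unfold sco
  have e : (N k + 21 * Real.log 2) / δ = N k / δ + 21 * Real.log 2 / δ := by ring
  rw [e]
  nlinarith

/-- **(ACC)** Digits of the direction behind the box of level `k` are known: a better chain. -/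
theorem acc {A E : F.Ω → Prop} {M g k : ℕ} {B : ℕ → Bx F} {N : ℕ → ℝ} {δ : ℝ} (hδ : 0 < δ)
    (h : Chn F A M g B N) (hk : k < M) (hE : ∀ ω, E ω → A ω) {x : ℕ} {L : ℝ} (hL : 0 ≤ L)
    (hx : (B k).q + x ≤ J)
    (hc : Cnt F E (ptk B k) (fun ω => ⌊(2 : ℝ) ^ ((B k).q + x) * F.d ω (B k).i0⌋)
      (Real.exp L)) :
    ∃ (B' : ℕ → Bx F) (N' : ℕ → ℝ), Chn F E M g B' N' ∧
      Up M g k δ (((x : ℝ) - 1) * Real.log 2 - (L + 21 * Real.log 2) / δ) B B' N N' := by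
  have hc' := h.sub hE
  obtain ⟨B₁, h3, h4, h5, h6⟩ := moda J F E (B k) _ (ptk B k) x L
    (hc'.ok k hk) (ptk_det_lab B le_rfl) hx hc
  have hL' : (0 : ℝ) ≤ L + 21 * Real.log 2 := by positivity
  have e21 : (2 : ℝ) ^ 21 * Real.exp L = Real.exp (L + 21 * Real.log 2) := by
    rw [Real.exp_add, show (21 : ℝ) * Real.log 2 = ((21 : ℕ) : ℝ) * Real.log 2 by norm_num,
      Real.exp_nat_mul, Real.exp_log (by norm_num), mul_comm]
  rw [e21] at h6
  refine ⟨_, _, hc'.fin hk h3 h5 hL' h6, ?_⟩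
  refine up_rep hδ h3 ?_
  have h7 : ((B k).q : ℝ) + (B k).n + x ≤ (B₁.q : ℝ) + B₁.n + 1 := by exact_mod_cast h4
  have hl : 0 ≤ Real.log 2 := Real.log_nonneg (by norm_num)
  have h8 := mul_le_mul_of_nonneg_right h7 hl
  unfold sco
  have e : (N k + (L + 21 * Real.log 2)) / δ = N k / δ + (L + 21 * Real.log 2) / δ := by ring
  rw [e]
  nlinarith

/-- **(SHC)** The shrunk box of level `k` as the box of level `k + 1`. -/
theorem shc {A : F.Ω → Prop} {M g k : ℕ} {B : ℕ → Bx F} {N : ℕ → ℝ} {δ : ℝ} (hδ : 0 < δ)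
    (h : Chn F A M g B N) (hk : k + 1 < M) :
    ∃ (B' : ℕ → Bx F) (N' : ℕ → ℝ), Chn F A M g B' N' ∧
      (∀ i ≤ k, B' i = B i ∧ N' i = N i) ∧
      ∀ i, k < i → i < M → sco δ B N k + (k : ℝ) * (2 * g * Real.log 2 / δ) ≤
        sco δ B' N' i + (i : ℝ) * (2 * g * Real.log 2 / δ) := by
  have hO : (B k).Ok A := h.ok k (by omega)
  refine ⟨_, _, h.shr hk, fun i hi => ⟨rep_lt (by omega), repN_lt (by omega)⟩,
    fun i hi _ => ?_⟩
  have h1 := sco_rep_ge hδ B N (k + 1) (hO.sh g) g (N k + 2 * g * Real.log 2)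
    (show k + 1 ≤ i by omega)
  refine le_trans ?_ h1
  rw [sco_rep_k]
  obtain ⟨h2, h3⟩ := hO.le_sh g
  have h2' : ((B k).q : ℝ) ≤ ((B k).sh g).q := by exact_mod_cast h2
  have h3' : ((B k).n : ℝ) ≤ ((B k).sh g).n := by exact_mod_cast h3
  have hl : 0 ≤ Real.log 2 := Real.log_nonneg (by norm_num)
  have h4 := mul_le_mul_of_nonneg_right (add_le_add h2' h3') hl
  unfold sco
  have e : (N k + 2 * g * Real.log 2) / δ = N k / δ + 2 * g * Real.log 2 / δ := by ring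
  rw [e]
  push_cast
  linarith

end Pool.PC
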