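import Mathlib

/-!
# Planar boxes

A box of the plane in a slope chart: `|v (s 0)| ≤ 2^-q` and `|v (s 1) - a v (s 0)| ≤ 2^-n`, with
`|a| ≤ 1` and `q ≤ n`. Every parallelogram is comparable to a box. So the intersection of a box with
a strip of relative width `2^-h` is comparable to a box with `h` more digits (`geo`), and a box whose
long coordinate is known to `x` more digits is comparable to a box with `x` more digits (`geoa`).
-/

set_option autoImplicit false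

namespace Pool.PC.Geo

lemma exists_pow {c : ℝ} (h0 : 0 < c) (h1 : c ≤ 8) :
    ∃ q : ℕ, c ≤ 8 / 2 ^ q ∧ 1 / 2 ^ q ≤ 2 * c := by
  rcases le_total 1 c with h | h
  · exact ⟨0, by simpa using h1, by simp; linarith⟩
  · obtain ⟨q, hq1, hq2⟩ := exists_nat_pow_near_of_lt_one h0 h (by norm_num : (0 : ℝ) < 1 / 2)
      (by norm_num)
    refine ⟨q, ?_, ?_⟩
    · have h3 : (0 : ℝ) < 1 / 2 ^ q := by positivity
      rw [one_div_pow] at hq2
      have h4 : (8 : ℝ) / 2 ^ q = 8 * (1 / 2 ^ q) := by ring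
      linarith
    · rw [one_div_pow, pow_succ] at hq1
      have h4 : (1 : ℝ) / (2 ^ q * 2) = (1 / 2 ^ q) / 2 := by
        rw [div_div]
      linarith

/-- A parallelogram with the long side `p`, in coordinates. -/
lemma par0 {p0 p1 r0 r1 : ℝ} (h1 : |p1| ≤ |p0|) (h2 : |r0| ≤ |p0|) (h3 : |r1| ≤ |p0|)
    (h4 : |p0| ≤ 4) (hd : p0 * r1 - p1 * r0 ≠ 0) :
    ∃ (a : ℝ) (q n : ℕ), |a| ≤ 1 ∧ q ≤ n ∧ 1 ≤ 4 * |p0 * r1 - p1 * r0| * 2 ^ (q + n) ∧
      |p0 * r1 - p1 * r0| * 2 ^ (q + n) ≤ 128 ∧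
      (∀ K t r, |t| ≤ K → |r| ≤ K → |t * p0 + r * r0| ≤ 16 * K / 2 ^ q ∧
        |(t * p1 + r * r1) - a * (t * p0 + r * r0)| ≤ 16 * K / 2 ^ n) ∧
      ∀ K x y, |x| ≤ K / 2 ^ q → |y - a * x| ≤ K / 2 ^ n →
        ∃ t r, |t| ≤ 4 * K ∧ |r| ≤ 4 * K ∧ x = t * p0 + r * r0 ∧ y = t * p1 + r * r1 := by
  have hp : p0 ≠ 0 := by
    rintro rfl
    rw [abs_zero] at h1 h2
    have e1 := abs_nonpos_iff.1 h1
    have e2 := abs_nonpos_iff.1 h2
    apply hd
    rw [e1, e2]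
    ring
  have hp' : 0 < |p0| := abs_pos.2 hp
  obtain ⟨k, hk⟩ : ∃ k : ℝ, k = r1 - p1 / p0 * r0 := ⟨_, rfl⟩
  have hdk : p0 * r1 - p1 * r0 = p0 * k := by
    rw [hk]
    field_simp
  have hk0 : k ≠ 0 := by
    rintro rfl
    apply hd
    rw [hdk, mul_zero]
  have hk' : 0 < |k| := abs_pos.2 hk0
  have ha : |p1 / p0| ≤ 1 := by
    rw [abs_div]
    exact (div_le_one hp').2 h1
  have hk2 : |k| ≤ 2 * |p0| := by
    rw [hk]
    refine (abs_sub _ _).trans ?_
    rw [abs_mul]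
    nlinarith [abs_nonneg r0]
  obtain ⟨q, hq1, hq2⟩ := exists_pow hp' (by linarith)
  obtain ⟨n₁, hn1, hn2⟩ := exists_pow hk' (by linarith)
  obtain ⟨n, hn⟩ : ∃ n, n = max q n₁ := ⟨_, rfl⟩
  have h2q : (0 : ℝ) < 2 ^ q := by positivity
  have h2n : (0 : ℝ) < 2 ^ n := by positivity
  have hkn : |k| ≤ 16 / 2 ^ n := by
    rcases le_total q n₁ with h | h
    · rw [hn, max_eq_right h]
      refine hn1.trans ?_
      gcongr
      norm_num
    · rw [hn, max_eq_left h]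
      have : (16 : ℝ) / 2 ^ q = 2 * (8 / 2 ^ q) := by ring
      rw [this]
      linarith
  have hnk : 1 / 2 ^ n ≤ 2 * |k| := by
    refine le_trans ?_ hn2
    apply one_div_le_one_div_of_le (by positivity)
    exact pow_le_pow_right₀ (by norm_num) (hn ▸ le_max_right _ _)
  refine ⟨p1 / p0, q, n, ha, hn ▸ le_max_left _ _, ?_, ?_, ?_, ?_⟩
  rotate_left
  · rw [hdk, abs_mul, pow_add]
    have e1 : |p0| * 2 ^ q ≤ 8 := by
      rwa [le_div_iff₀ h2q] at hq1
    have e2 : |k| * 2 ^ n ≤ 16 := by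
      rwa [le_div_iff₀ h2n] at hkn
    calc |p0| * |k| * (2 ^ q * 2 ^ n) = (|p0| * 2 ^ q) * (|k| * 2 ^ n) := by ring
      _ ≤ 8 * 16 := by gcongr
      _ = 128 := by norm_num
  rotate_right
  · rw [hdk, abs_mul, pow_add]
    have e1 : 1 ≤ 2 * |p0| * 2 ^ q := by
      rwa [div_le_iff₀ h2q] at hq2
    have e2 : 1 ≤ 2 * |k| * 2 ^ n := by
      rwa [div_le_iff₀ h2n] at hnk
    calc (1 : ℝ) ≤ (2 * |p0| * 2 ^ q) * (2 * |k| * 2 ^ n) := one_le_mul_of_one_le_of_one_le e1 e2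
      _ = _ := by ring
  · intro K t r ht hr
    constructor
    · calc |t * p0 + r * r0| ≤ |t| * |p0| + |r| * |r0| := by
            refine (abs_add_le _ _).trans ?_
            rw [abs_mul, abs_mul]
        _ ≤ K * |p0| + K * |p0| := by
            have hK : 0 ≤ K := (abs_nonneg _).trans ht
            gcongr
        _ = 2 * K * |p0| := by ring
        _ ≤ 2 * K * (8 / 2 ^ q) := by
            have hK : 0 ≤ K := (abs_nonneg _).trans ht
            gcongr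
        _ = 16 * K / 2 ^ q := by ring
    · have e : (t * p1 + r * r1) - p1 / p0 * (t * p0 + r * r0) = r * k := by
        rw [hk]
        field_simp
        ring
      rw [e, abs_mul]
      calc |r| * |k| ≤ K * (16 / 2 ^ n) := by
            have hK : 0 ≤ K := (abs_nonneg _).trans ht
            gcongr
        _ = 16 * K / 2 ^ n := by ring
  · intro K x y hx hy
    have hK : 0 ≤ K := by
      have := (abs_nonneg _).trans hx
      by_contra hc
      push Not at hc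
      have := div_neg_of_neg_of_pos hc h2q
      linarith
    have er : |(y - p1 / p0 * x) / k| ≤ 2 * K := by
      rw [abs_div, div_le_iff₀ hk']
      refine hy.trans ?_
      have : K / 2 ^ n = K * (1 / 2 ^ n) := by ring
      rw [this]
      nlinarith
    have ex : |x / p0| ≤ 2 * K := by
      rw [abs_div, div_le_iff₀ hp']
      refine hx.trans ?_
      have : K / 2 ^ q = K * (1 / 2 ^ q) := by ring
      rw [this]
      nlinarith
    refine ⟨x / p0 - (y - p1 / p0 * x) / k * (r0 / p0), (y - p1 / p0 * x) / k, ?_, by linarith,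
      ?_, ?_⟩
    · refine (abs_sub _ _).trans ?_
      rw [abs_mul]
      have e3 : |r0 / p0| ≤ 1 := by
        rw [abs_div]
        exact (div_le_one hp').2 h2
      nlinarith [abs_nonneg (r0 / p0), abs_nonneg ((y - p1 / p0 * x) / k)]
    · field_simp
      ring
    · have e5 : (x / p0 - (y - p1 / p0 * x) / k * (r0 / p0)) * p1 +
          (y - p1 / p0 * x) / k * r1 = x / p0 * p1 +
            (y - p1 / p0 * x) / k * (r1 - p1 / p0 * r0) := by
        ring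
      rw [e5, ← hk]
      field_simp
      ring

/-- A parallelogram is comparable to a box. -/
theorem par {p r : Fin 2 → ℝ} (hp : ∀ i, |p i| ≤ 4) (hr : ∀ i, |r i| ≤ 4)
    (hd : p 0 * r 1 - p 1 * r 0 ≠ 0) :
    ∃ (s : Fin 2 → Fin 2) (a : ℝ) (q n : ℕ), Function.Injective s ∧ |a| ≤ 1 ∧ q ≤ n ∧
      1 ≤ 4 * |p 0 * r 1 - p 1 * r 0| * 2 ^ (q + n) ∧
      |p 0 * r 1 - p 1 * r 0| * 2 ^ (q + n) ≤ 128 ∧
      (∀ K t t', |t| ≤ K → |t'| ≤ K → |t * p (s 0) + t' * r (s 0)| ≤ 16 * K / 2 ^ q ∧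
        |(t * p (s 1) + t' * r (s 1)) - a * (t * p (s 0) + t' * r (s 0))| ≤ 16 * K / 2 ^ n) ∧
      ∀ K (v : Fin 2 → ℝ), |v (s 0)| ≤ K / 2 ^ q → |v (s 1) - a * v (s 0)| ≤ K / 2 ^ n →
        ∃ t t', |t| ≤ 4 * K ∧ |t'| ≤ 4 * K ∧ ∀ i, v i = t * p i + t' * r i := by
  -- the long side, and its long coordinate
  have key : ∀ {p r : Fin 2 → ℝ}, (∀ i, |p i| ≤ 4) → p 0 * r 1 - p 1 * r 0 ≠ 0 →
      ∀ s : Fin 2 → Fin 2, Function.Injective s → (∀ i, |p i| ≤ |p (s 0)|) →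
      (∀ i, |r i| ≤ |p (s 0)|) → ∃ (a : ℝ) (q n : ℕ), |a| ≤ 1 ∧ q ≤ n ∧
      1 ≤ 4 * |p 0 * r 1 - p 1 * r 0| * 2 ^ (q + n) ∧
      |p 0 * r 1 - p 1 * r 0| * 2 ^ (q + n) ≤ 128 ∧
      (∀ K t t', |t| ≤ K → |t'| ≤ K → |t * p (s 0) + t' * r (s 0)| ≤ 16 * K / 2 ^ q ∧
        |(t * p (s 1) + t' * r (s 1)) - a * (t * p (s 0) + t' * r (s 0))| ≤ 16 * K / 2 ^ n) ∧
      ∀ K (v : Fin 2 → ℝ), |v (s 0)| ≤ K / 2 ^ q → |v (s 1) - a * v (s 0)| ≤ K / 2 ^ n →
        ∃ t t', |t| ≤ 4 * K ∧ |t'| ≤ 4 * K ∧ ∀ i, v i = t * p i + t' * r i := by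
    intro p r hp hd s hs h1 h2
    have hs01 : s 0 ≠ s 1 := fun h => by simpa using hs h
    have hdet : |p (s 0) * r (s 1) - p (s 1) * r (s 0)| = |p 0 * r 1 - p 1 * r 0| := by
      generalize s 0 = i at hs01
      generalize s 1 = j at hs01
      fin_cases i <;> fin_cases j <;> simp at hs01 ⊢
      rw [← abs_neg]
      congr 1
      ring
    have hd' : p (s 0) * r (s 1) - p (s 1) * r (s 0) ≠ 0 := by
      rw [← abs_pos, hdet, abs_pos]
      exact hd
    obtain ⟨a, q, n, e1, e2, e3, e3', e4, e5⟩ :=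
      par0 (h1 (s 1)) (h2 (s 0)) (h2 (s 1)) (hp (s 0)) hd'
    refine ⟨a, q, n, e1, e2, hdet ▸ e3, hdet ▸ e3', e4, fun K v hv1 hv2 => ?_⟩
    obtain ⟨t, t', f1, f2, f3, f4⟩ := e5 K _ _ hv1 hv2
    refine ⟨t, t', f1, f2, fun i => ?_⟩
    have : i = s 0 ∨ i = s 1 := by
      generalize s 0 = k at hs01 ⊢
      generalize s 1 = j at hs01 ⊢
      fin_cases i <;> fin_cases k <;> fin_cases j <;> simp at hs01 ⊢
    rcases this with rfl | rfl
    · exact f3
    · exact f4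
  -- the long coordinate of a vector
  have lc : ∀ p : Fin 2 → ℝ, ∃ s : Fin 2 → Fin 2, Function.Injective s ∧
      ∀ i, |p i| ≤ |p (s 0)| := by
    intro p
    rcases le_total |p 1| |p 0| with h | h
    · refine ⟨id, Function.injective_id, fun i => ?_⟩
      fin_cases i
      · exact le_rfl
      · exact h
    · refine ⟨Equiv.swap 0 1, Equiv.injective _, fun i => ?_⟩
      rw [Equiv.swap_apply_left]
      fin_cases i
      · exact h
      · exact le_rfl
  obtain ⟨s, hs, h1⟩ := lc p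
  obtain ⟨s', hs', h1'⟩ := lc r
  rcases le_total |r (s' 0)| |p (s 0)| with h | h
  · obtain ⟨a, q, n, H⟩ := key hp hd s hs h1 (fun i => (h1' i).trans h)
    exact ⟨s, a, q, n, hs, H⟩
  · have hd' : r 0 * p 1 - r 1 * p 0 ≠ 0 := by
      intro h0
      apply hd
      linarith
    obtain ⟨a, q, n, e1, e2, e3, e3', e4, e5⟩ :=
      key hr hd' s' hs' h1' (fun i => (h1 i).trans h)
    have hdet : |r 0 * p 1 - r 1 * p 0| = |p 0 * r 1 - p 1 * r 0| := by
      rw [← abs_neg]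
      congr 1
      ring
    refine ⟨s', a, q, n, hs', e1, e2, hdet ▸ e3, hdet ▸ e3', fun K t t' ht ht' => ?_,
      fun K v hv1 hv2 => ?_⟩
    · have := e4 K t' t ht' ht
      rwa [add_comm (t' * r (s' 0)), add_comm (t' * r (s' 1))] at this
    · obtain ⟨t, t', f1, f2, f3⟩ := e5 K v hv1 hv2
      exact ⟨t', t, f2, f1, fun i => by rw [f3 i]; ring⟩

/-- The box of a chart. -/
def Bx (s : Fin 2 → Fin 2) (a : ℝ) (q n : ℕ) (K : ℝ) (v : Fin 2 → ℝ) : Prop :=
  |v (s 0)| ≤ K / 2 ^ q ∧ |v (s 1) - a * v (s 0)| ≤ K / 2 ^ n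

/-- The linear form of a strip, in the zoom of the box. -/
noncomputable def stf (s : Fin 2 → Fin 2) (a : ℝ) (q n : ℕ) (α β : ℝ) (v : Fin 2 → ℝ) : ℝ :=
  α * (2 ^ q * v (s 0)) + β * (2 ^ n * (v (s 1) - a * v (s 0)))

lemma inj2 {s : Fin 2 → Fin 2} (hs : Function.Injective s) (i : Fin 2) : i = s 0 ∨ i = s 1 := by
  have hs01 : s 0 ≠ s 1 := fun h => by simpa using hs h
  generalize s 0 = k at hs01 ⊢
  generalize s 1 = j at hs01 ⊢
  fin_cases i <;> fin_cases k <;> fin_cases j <;> simp at hs01 ⊢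

lemma det2 {s : Fin 2 → Fin 2} (hs : Function.Injective s) (p r : Fin 2 → ℝ) :
    |p 0 * r 1 - p 1 * r 0| = |p (s 0) * r (s 1) - p (s 1) * r (s 0)| := by
  have hs01 : s 0 ≠ s 1 := fun h => by simpa using hs h
  generalize s 0 = i at hs01
  generalize s 1 = j at hs01
  fin_cases i <;> fin_cases j <;> simp at hs01 ⊢
  rw [← abs_neg]
  congr 1
  ring

/-- A vector with given coordinates in the chart. -/
lemma exists_vec {s : Fin 2 → Fin 2} (hs : Function.Injective s) (x y : ℝ) :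
    ∃ p : Fin 2 → ℝ, p (s 0) = x ∧ p (s 1) = y := by
  have hs01 : s 1 ≠ s 0 := fun h => by simpa using hs h
  refine ⟨fun i => if i = s 0 then x else y, by simp, ?_⟩
  show (if s 1 = s 0 then x else y) = y
  rw [if_neg hs01]

/-- **The strip.** The intersection of a box and a strip of relative width `2^-h` is comparable to a
box with `h` more digits. -/
theorem geo {s : Fin 2 → Fin 2} (hs : Function.Injective s) {a : ℝ} (ha : |a| ≤ 1) {q n : ℕ}
    (hqn : q ≤ n) (h : ℕ) {α β : ℝ} (hα : |α| ≤ 1) (hβ : |β| ≤ 1) (hαβ : 1 ≤ α ^ 2 + β ^ 2) :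
    ∃ (s' : Fin 2 → Fin 2) (a' : ℝ) (q' n' : ℕ), Function.Injective s' ∧ |a'| ≤ 1 ∧ q' ≤ n' ∧
      q + n + h ≤ q' + n' + 3 ∧ q' + n' ≤ q + n + h + 7 ∧
      (∀ K v, Bx s a q n K v → |stf s a q n α β v| ≤ K / 2 ^ h → Bx s' a' q' n' (32 * K) v) ∧
      ∀ K v, Bx s' a' q' n' K v → Bx s a q n (8 * K) v ∧ |stf s a q n α β v| ≤ 8 * K / 2 ^ h := by
  obtain ⟨p, hp0, hp1⟩ := exists_vec hs (β / 2 ^ q) (a * (β / 2 ^ q) - α / 2 ^ n)
  obtain ⟨r, hr0, hr1⟩ := exists_vec hs (α / 2 ^ q / 2 ^ h)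
    ((a * (α / 2 ^ q) + β / 2 ^ n) / 2 ^ h)
  have h2q : (1 : ℝ) ≤ 2 ^ q := one_le_pow₀ (by norm_num)
  have h2n : (1 : ℝ) ≤ 2 ^ n := one_le_pow₀ (by norm_num)
  have h2h : (1 : ℝ) ≤ 2 ^ h := one_le_pow₀ (by norm_num)
  have hαβ' : α ^ 2 + β ^ 2 ≤ 2 := by
    have e1 : α ^ 2 ≤ 1 := by rw [← sq_abs]; exact pow_le_one₀ (abs_nonneg _) hα
    have e2 : β ^ 2 ≤ 1 := by rw [← sq_abs]; exact pow_le_one₀ (abs_nonneg _) hβ
    linarith
  have dv : ∀ {x : ℝ} {k : ℕ}, |x| ≤ 1 → |x / 2 ^ k| ≤ 1 := by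
    intro x k hx
    rw [abs_div, abs_of_pos (by positivity : (0 : ℝ) < 2 ^ k)]
    exact (div_le_one (by positivity)).2 (hx.trans (one_le_pow₀ (by norm_num)))
  have bd : ∀ {x y : ℝ}, |x| ≤ 1 → |y| ≤ 1 → |a * x + y| ≤ 2 := by
    intro x y hx hy
    refine (abs_add_le _ _).trans ?_
    rw [abs_mul]
    have := mul_le_one₀ ha (abs_nonneg _) hx
    linarith
  have hp : ∀ i, |p i| ≤ 4 := by
    intro i
    rcases inj2 hs i with rfl | rfl
    · rw [hp0]
      exact (dv hβ).trans (by norm_num)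
    · rw [hp1, sub_eq_add_neg]
      exact (bd (dv hβ) (by rw [abs_neg]; exact dv hα)).trans (by norm_num)
  have hr : ∀ i, |r i| ≤ 4 := by
    intro i
    rcases inj2 hs i with rfl | rfl
    · rw [hr0]
      exact (dv (dv hα)).trans (by norm_num)
    · rw [hr1, abs_div, abs_of_pos (by positivity : (0 : ℝ) < 2 ^ h)]
      exact (div_le_self (abs_nonneg _) h2h).trans ((bd (dv hα) (dv hβ)).trans (by norm_num))
  have hdet : |p 0 * r 1 - p 1 * r 0| = (α ^ 2 + β ^ 2) / 2 ^ (q + n + h) := by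
    rw [det2 hs, hp0, hp1, hr0, hr1]
    have : β / 2 ^ q * ((a * (α / 2 ^ q) + β / 2 ^ n) / 2 ^ h) -
        (a * (β / 2 ^ q) - α / 2 ^ n) * (α / 2 ^ q / 2 ^ h) =
        (α ^ 2 + β ^ 2) / 2 ^ (q + n + h) := by
      rw [pow_add, pow_add]
      field_simp
      ring
    rw [this, abs_of_nonneg (by positivity)]
  have hd : p 0 * r 1 - p 1 * r 0 ≠ 0 := by
    rw [← abs_pos, hdet]
    positivity
  obtain ⟨s', a', q', n', hs', ha', hqn', e1, e2, e3, e4⟩ := par hp hr hd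
  refine ⟨s', a', q', n', hs', ha', hqn', ?_, ?_, ?_, ?_⟩
  · rw [hdet] at e1
    have e5 : (2 : ℝ) ^ (q + n + h) ≤ 2 ^ (q' + n' + 3) := by
      have e6 : (0 : ℝ) < 2 ^ (q + n + h) := by positivity
      have e7 : 4 * ((α ^ 2 + β ^ 2) / 2 ^ (q + n + h)) * 2 ^ (q' + n') =
          4 * (α ^ 2 + β ^ 2) * 2 ^ (q' + n') / 2 ^ (q + n + h) := by ring
      rw [e7, le_div_iff₀ e6, one_mul] at e1
      rw [pow_add _ _ 3]
      nlinarith [(by positivity : (0 : ℝ) < 2 ^ (q' + n'))]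
    exact (pow_le_pow_iff_right₀ (by norm_num : (1 : ℝ) < 2)).1 e5
  · rw [hdet] at e2
    have e5 : (2 : ℝ) ^ (q' + n') ≤ 2 ^ (q + n + h + 7) := by
      have e6 : (0 : ℝ) < 2 ^ (q + n + h) := by positivity
      have e7 : (α ^ 2 + β ^ 2) / 2 ^ (q + n + h) * 2 ^ (q' + n') =
          (α ^ 2 + β ^ 2) * 2 ^ (q' + n') / 2 ^ (q + n + h) := by ring
      rw [e7, div_le_iff₀ e6] at e2
      rw [pow_add _ _ 7]
      nlinarith [(by positivity : (0 : ℝ) < 2 ^ (q' + n'))]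
    exact (pow_le_pow_iff_right₀ (by norm_num : (1 : ℝ) < 2)).1 e5
  · rintro K v ⟨hv1, hv2⟩ hv3
    obtain ⟨x, hx⟩ : ∃ x, x = 2 ^ q * v (s 0) := ⟨_, rfl⟩
    obtain ⟨y, hy⟩ : ∃ y, y = 2 ^ n * (v (s 1) - a * v (s 0)) := ⟨_, rfl⟩
    have hx1 : |x| ≤ K := by
      rw [hx, abs_mul, abs_of_pos (by positivity : (0 : ℝ) < 2 ^ q), mul_comm]
      exact (le_div_iff₀ (by positivity)).1 hv1
    have hy1 : |y| ≤ K := by
      rw [hy, abs_mul, abs_of_pos (by positivity : (0 : ℝ) < 2 ^ n), mul_comm]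
      exact (le_div_iff₀ (by positivity)).1 hv2
    have hst : stf s a q n α β v = α * x + β * y := by
      rw [hx, hy]
      rfl
    rw [hst] at hv3
    have hK : 0 ≤ K := (abs_nonneg _).trans hx1
    have hw : 0 < α ^ 2 + β ^ 2 := by linarith
    have ht : |(β * x - α * y) / (α ^ 2 + β ^ 2)| ≤ 2 * K := by
      rw [abs_div, abs_of_pos hw]
      refine (div_le_self (abs_nonneg _) hαβ).trans ?_
      refine (abs_sub _ _).trans ?_
      rw [abs_mul, abs_mul]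
      nlinarith [abs_nonneg x, abs_nonneg y, abs_nonneg α, abs_nonneg β]
    have ht' : |2 ^ h * (α * x + β * y) / (α ^ 2 + β ^ 2)| ≤ 2 * K := by
      rw [abs_div, abs_of_pos hw]
      refine (div_le_self (abs_nonneg _) hαβ).trans ?_
      rw [abs_mul, abs_of_pos (by positivity : (0 : ℝ) < 2 ^ h), mul_comm]
      have := (le_div_iff₀ (by positivity)).1 hv3
      linarith
    have hv : ∀ i, v i = (β * x - α * y) / (α ^ 2 + β ^ 2) * p i +
        2 ^ h * (α * x + β * y) / (α ^ 2 + β ^ 2) * r i := by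
      intro i
      rcases inj2 hs i with rfl | rfl
      · rw [hp0, hr0, hx]
        field_simp
        ring
      · rw [hp1, hr1]
        have e8 : v (s 1) = y / 2 ^ n + a * (x / 2 ^ q) := by
          rw [hx, hy]
          field_simp
          ring
        rw [e8]
        field_simp
        ring
    obtain ⟨e9, e10⟩ := e3 (2 * K) _ _ ht ht'
    rw [← hv, ← hv] at *
    refine ⟨?_, ?_⟩
    · rw [show (32 : ℝ) * K = 16 * (2 * K) by ring]
      exact e9
    · rw [show (32 : ℝ) * K = 16 * (2 * K) by ring]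
      exact e10
  · rintro K v ⟨hv1, hv2⟩
    obtain ⟨t, t', f1, f2, f3⟩ := e4 K v hv1 hv2
    have hK : 0 ≤ K := by linarith [(abs_nonneg _).trans f1]
    have c0 : 2 ^ q * v (s 0) = t * β + t' / 2 ^ h * α := by
      rw [f3, hp0, hr0]
      field_simp
    have c1 : 2 ^ n * (v (s 1) - a * v (s 0)) = -(t * α) + t' / 2 ^ h * β := by
      rw [f3, f3 (s 0), hp0, hr0, hp1, hr1]
      field_simp
      ring
    have f2' : |t' / 2 ^ h| ≤ 4 * K := by
      rw [abs_div, abs_of_pos (by positivity : (0 : ℝ) < 2 ^ h)]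
      exact (div_le_self (abs_nonneg _) h2h).trans f2
    have b0 : |2 ^ q * v (s 0)| ≤ 8 * K := by
      rw [c0]
      refine (abs_add_le _ _).trans ?_
      rw [abs_mul, abs_mul]
      nlinarith [abs_nonneg t, abs_nonneg (t' / 2 ^ h), abs_nonneg α, abs_nonneg β]
    have b1 : |2 ^ n * (v (s 1) - a * v (s 0))| ≤ 8 * K := by
      rw [c1]
      refine (abs_add_le _ _).trans ?_
      rw [abs_neg, abs_mul, abs_mul]
      nlinarith [abs_nonneg t, abs_nonneg (t' / 2 ^ h), abs_nonneg α, abs_nonneg β]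
    refine ⟨⟨?_, ?_⟩, ?_⟩
    · rw [le_div_iff₀ (by positivity), mul_comm]
      rwa [abs_mul, abs_of_pos (by positivity : (0 : ℝ) < 2 ^ q)] at b0
    · rw [le_div_iff₀ (by positivity), mul_comm]
      rwa [abs_mul, abs_of_pos (by positivity : (0 : ℝ) < 2 ^ n)] at b1
    · have : stf s a q n α β v = t' * (α ^ 2 + β ^ 2) / 2 ^ h := by
        unfold stf
        rw [c0, c1]
        ring
      rw [this, abs_div, abs_of_pos (by positivity : (0 : ℝ) < 2 ^ h), abs_mul,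
        abs_of_nonneg (by positivity : (0 : ℝ) ≤ α ^ 2 + β ^ 2)]
      have e11 : |t'| * (α ^ 2 + β ^ 2) ≤ 8 * K := by
        calc |t'| * (α ^ 2 + β ^ 2) ≤ (4 * K) * 2 := by gcongr
          _ = 8 * K := by ring
      gcongr

/-- **More digits of the long coordinate.** -/
theorem geoa {s : Fin 2 → Fin 2} (hs : Function.Injective s) {a : ℝ} (ha : |a| ≤ 1) (q n : ℕ) :
    ∃ (s' : Fin 2 → Fin 2) (a' : ℝ) (q' n' : ℕ), Function.Injective s' ∧ |a'| ≤ 1 ∧ q' ≤ n' ∧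
      q + n ≤ q' + n' + 2 ∧ q' + n' ≤ q + n + 7 ∧
      (∀ K v, Bx s a q n K v → Bx s' a' q' n' (16 * K) v) ∧
      ∀ K v, Bx s' a' q' n' K v → Bx s a q n (4 * K) v := by
  obtain ⟨p, hp0, hp1⟩ := exists_vec hs (1 / 2 ^ q) (a * (1 / 2 ^ q))
  obtain ⟨r, hr0, hr1⟩ := exists_vec hs 0 (1 / 2 ^ n)
  have dv : ∀ {k : ℕ}, |(1 : ℝ) / 2 ^ k| ≤ 1 := by
    intro k
    rw [abs_of_pos (by positivity)]
    exact (div_le_one (by positivity)).2 (one_le_pow₀ (by norm_num))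
  have hp : ∀ i, |p i| ≤ 4 := by
    intro i
    rcases inj2 hs i with rfl | rfl
    · rw [hp0]
      exact dv.trans (by norm_num)
    · rw [hp1, abs_mul]
      exact (mul_le_one₀ ha (abs_nonneg _) dv).trans (by norm_num)
  have hr : ∀ i, |r i| ≤ 4 := by
    intro i
    rcases inj2 hs i with rfl | rfl
    · rw [hr0]
      norm_num
    · rw [hr1]
      exact dv.trans (by norm_num)
  have hdet : |p 0 * r 1 - p 1 * r 0| = 1 / 2 ^ (q + n) := by
    rw [det2 hs, hp0, hp1, hr0, hr1]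
    have : (1 : ℝ) / 2 ^ q * (1 / 2 ^ n) - a * (1 / 2 ^ q) * 0 = 1 / 2 ^ (q + n) := by
      rw [pow_add]
      field_simp
      ring
    rw [this, abs_of_nonneg (by positivity)]
  have hd : p 0 * r 1 - p 1 * r 0 ≠ 0 := by
    rw [← abs_pos, hdet]
    positivity
  obtain ⟨s', a', q', n', hs', ha', hqn', e1, e2, e3, e4⟩ := par hp hr hd
  refine ⟨s', a', q', n', hs', ha', hqn', ?_, ?_, ?_, ?_⟩
  · rw [hdet] at e1
    have e5 : (2 : ℝ) ^ (q + n) ≤ 2 ^ (q' + n' + 2) := by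
      have e6 : (0 : ℝ) < 2 ^ (q + n) := by positivity
      have e7 : 4 * ((1 : ℝ) / 2 ^ (q + n)) * 2 ^ (q' + n') =
          4 * 2 ^ (q' + n') / 2 ^ (q + n) := by ring
      rw [e7, le_div_iff₀ e6, one_mul] at e1
      rw [pow_add _ _ 2]
      linarith
    exact (pow_le_pow_iff_right₀ (by norm_num : (1 : ℝ) < 2)).1 e5
  · rw [hdet] at e2
    have e5 : (2 : ℝ) ^ (q' + n') ≤ 2 ^ (q + n + 7) := by
      have e6 : (0 : ℝ) < 2 ^ (q + n) := by positivity
      have e7 : (1 : ℝ) / 2 ^ (q + n) * 2 ^ (q' + n') = 2 ^ (q' + n') / 2 ^ (q + n) := by ring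
      rw [e7, div_le_iff₀ e6] at e2
      rw [pow_add _ _ 7]
      linarith
    exact (pow_le_pow_iff_right₀ (by norm_num : (1 : ℝ) < 2)).1 e5
  · rintro K v ⟨hv1, hv2⟩
    have hx1 : |2 ^ q * v (s 0)| ≤ K := by
      rw [abs_mul, abs_of_pos (by positivity : (0 : ℝ) < 2 ^ q), mul_comm]
      exact (le_div_iff₀ (by positivity)).1 hv1
    have hy1 : |2 ^ n * (v (s 1) - a * v (s 0))| ≤ K := by
      rw [abs_mul, abs_of_pos (by positivity : (0 : ℝ) < 2 ^ n), mul_comm]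
      exact (le_div_iff₀ (by positivity)).1 hv2
    have hv : ∀ i, v i = 2 ^ q * v (s 0) * p i + 2 ^ n * (v (s 1) - a * v (s 0)) * r i := by
      intro i
      rcases inj2 hs i with rfl | rfl
      · rw [hp0, hr0]
        field_simp
        ring
      · rw [hp1, hr1]
        field_simp
        ring
    obtain ⟨e9, e10⟩ := e3 K _ _ hx1 hy1
    rw [← hv, ← hv] at *
    exact ⟨e9, e10⟩
  · rintro K v ⟨hv1, hv2⟩
    obtain ⟨t, t', f1, f2, f3⟩ := e4 K v hv1 hv2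
    have c0 : 2 ^ q * v (s 0) = t := by
      rw [f3, hp0, hr0]
      field_simp
      ring
    have c1 : 2 ^ n * (v (s 1) - a * v (s 0)) = t' := by
      rw [f3, f3 (s 0), hp0, hr0, hp1, hr1]
      field_simp
      ring
    refine ⟨?_, ?_⟩
    · rw [← c0, abs_mul, abs_of_pos (by positivity : (0 : ℝ) < 2 ^ q), mul_comm] at f1
      exact (le_div_iff₀ (by positivity)).2 f1
    · rw [← c1, abs_mul, abs_of_pos (by positivity : (0 : ℝ) < 2 ^ n), mul_comm] at f2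
      exact (le_div_iff₀ (by positivity)).2 f2

end Pool.PC.Geo
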