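import Pool.Agent.H93.PC.Stmts

/-!
# Plan C, row JBOX: the first level
-/

set_option autoImplicit false

namespace Pool.PCD

open Finset Real
open Pool.Agent.H49.Ent Pool.Agent.H32.Dense Pool.STK Pool.KA Pool.KSAT Pool.K2S Pool.PB Pool.PC

namespace JB

/-- A statement about the families of a class holds for the subclasses. -/
theorem bs_le {S S' : PCl 2} (hle : S'.Le S) {Φ : ∀ J : ℕ, Fam 2 J → Prop} (h : Bs S Φ) :
    Bs S' Φ := by
  obtain ⟨τ, hτ, J₁, h⟩ := h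
  obtain ⟨τ₀, hτ₀, hle⟩ := hle
  refine ⟨min τ τ₀, lt_min hτ hτ₀, J₁, fun J hJ F A hA => h J hJ F A ?_⟩
  exact S.mono (min_le_left _ _) (hle _ (lt_min hτ hτ₀) (min_le_right _ _) J F A hA)

/-- The intersection of two classes. -/
def inf {m : ℕ} (S' S : PCl m) : PCl m where
  St τ J F A := S'.St τ J F A ∧ S.St τ J F A
  mono h hA := ⟨S'.mono h hA.1, S.mono h hA.2⟩
  res h0 hA hB hP := ⟨S'.res h0 hA.1 hB hP, S.res h0 hA.2 hB hP⟩

theorem inf_le_left {m : ℕ} (S' S : PCl m) : (inf S' S).Le S' :=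
  ⟨1, one_pos, fun _ _ _ _ _ _ h => h.1⟩

theorem inf_le_right {m : ℕ} (S' S : PCl m) : (inf S' S).Le S :=
  ⟨1, one_pos, fun _ _ _ _ _ _ h => h.2⟩

theorem inf_ne {m : ℕ} {S' S : PCl m} (hle : S'.Le S) (hne : S'.Ne) : (inf S' S).Ne := by
  obtain ⟨τ₀, hτ₀, hle⟩ := hle
  intro τ hτ J₁
  obtain ⟨J, hJ, F, A, hA⟩ := hne (min τ τ₀) (lt_min hτ hτ₀) J₁
  exact ⟨J, hJ, F, A, S'.mono (min_le_left _ _) hA,
    S.mono (min_le_left _ _) (hle _ (lt_min hτ hτ₀) (min_le_right _ _) J F A hA)⟩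

theorem ck_inf {S' S : PCl 2} {K : ℕ} {η : ℝ} (h : CK S K η) (hle : S'.Le S) (hne : S'.Ne) :
    CK (inf S' S) K η where
  ne := inf_ne hle hne
  pe := fun τ J F A hA => h.pe τ J F A hA.2
  dd := fun h' hh' => bs_le (inf_le_right S' S) (h.dd h' hh')

theorem rt_le {S' S : PCl 2} {a : ℝ → ℝ} (h : Rt S a) (hle : S'.Le S) : Rt S' a where
  zero := h.zero
  lip := h.lip
  rate := fun x h0 h1 e he => bs_le hle (h.rate x h0 h1 e he)

/-- The rate function is continuous on the unit interval; `δ x - a x` has a maximum on `[g, 1]`. -/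
theorem exists_max {a : ℝ → ℝ} {δ g : ℝ} (hg0 : 0 ≤ g) (hg1 : g ≤ 1)
    (hlip : ∀ x y : ℝ, 0 ≤ x → x ≤ y → y ≤ 1 → a x ≤ a y ∧ a y ≤ a x + 2 * (y - x)) :
    ∃ q₁, g ≤ q₁ ∧ q₁ ≤ 1 ∧ ∀ x, g ≤ x → x ≤ 1 → a q₁ + δ * (x - q₁) ≤ a x := by
  have hc : ContinuousOn (fun x => δ * x - a x) (Set.Icc g 1) := by
    have ha : ContinuousOn a (Set.Icc g 1) := by
      have : LipschitzOnWith 2 a (Set.Icc g 1) := by
        refine LipschitzOnWith.of_dist_le_mul fun x hx y hy => ?_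
        rw [Real.dist_eq, Real.dist_eq]
        have key : ∀ x ∈ Set.Icc g 1, ∀ y ∈ Set.Icc g 1, x ≤ y →
            |a x - a y| ≤ 2 * |x - y| := by
          intro x hx y hy hxy
          obtain ⟨h1, h2⟩ := hlip x y (hg0.trans hx.1) hxy hy.2
          rw [abs_of_nonpos (by linarith), abs_of_nonpos (by linarith)]
          linarith
        push_cast
        rcases le_total x y with h | h
        · exact key x hx y hy h
        · rw [abs_sub_comm (a x), abs_sub_comm x]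
          exact key y hy x hx h
      exact this.continuousOn
    exact (continuousOn_const.mul continuousOn_id).sub ha
  obtain ⟨q₁, hq, hmax⟩ := isCompact_Icc.exists_isMaxOn (Set.nonempty_Icc.2 hg1) hc
  refine ⟨q₁, hq.1, hq.2, fun x h0 h1 => ?_⟩
  have h2 : δ * x - a x ≤ δ * q₁ - a q₁ := hmax (Set.mem_Icc.2 ⟨h0, h1⟩)
  linarith

end JB

open JB in
/-- **JBOX.** -/
theorem jbox : JBoxStmt := by
  intro hnum hdec δ η K S hδ hCK
  obtain ⟨S', hle, hne, a, hRt⟩ := hnum K η S hCK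
  have hC1 := ck_inf hCK hle hne
  have hR1 := rt_le hRt (inf_le_left S' S)
  obtain ⟨q₁, h0, h1, hmax⟩ := exists_max (δ := δ) le_rfl zero_le_one hRt.lip
  have haq : a q₁ ≤ δ * q₁ := by
    have := hmax 0 le_rfl zero_le_one
    rw [hRt.zero] at this
    linarith
  rcases h1.eq_or_lt with h2 | h2
  · exact ⟨_, inf_le_right S' S, hC1.ne, a, hR1, q₁, h0, h1, haq, Or.inl h2⟩
  · obtain ⟨S₂, hle2, hne2, hlv⟩ := hdec K η δ (inf S' S) a (fun _ => q₁) hδ hC1 hR1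
      fun _ => ⟨h0, h2, fun x hx hx1 => hmax x (h0.trans hx) hx1⟩
    exact ⟨S₂, hle2.trans (inf_le_right S' S), hne2, a, rt_le hR1 hle2, q₁, h0, h1, haq,
      Or.inr (hlv 0)⟩

end Pool.PCD
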